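import Pool.Agent.BBN.Main

/-!
Words on cosets of a normal subgroup.
-/

namespace Pool.Agent.BBN

open scoped commutatorElement
open Pool.Agent.BBG

universe u

set_option linter.unusedSectionVars false

lemma Nil.mono {d d' : ℕ} (h : d ≤ d') {N : Type*} [Group N] (hN : Nil d N) : Nil d' N := by
  unfold Nil at *
  rw [eq_bot_iff, ← hN]
  exact (⊤ : Subgroup N).lowerCentralSeries_antitone h

/-- A subgroup whose lower central series (computed in the ambient group) vanishes is
nilpotent. -/
lemma nil_of_lcs {d : ℕ} {G : Type*} [Group G] (K : Subgroup G)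
    (h : K.lowerCentralSeries d = ⊥) : Nil d K := by
  unfold Nil
  have h1 : ((⊤ : Subgroup K).lowerCentralSeries d).map K.subtype = ⊥ := by
    rw [Subgroup.map_lowerCentralSeries, ← MonoidHom.range_eq_map, Subgroup.range_subtype]
    exact h
  rw [Subgroup.map_eq_bot_iff, Subgroup.ker_subtype] at h1
  exact le_bot_iff.mp h1

/-- A word evaluated on a coset of a normal subgroup is a word evaluated at conjugates of the
entries, times a constant. -/
lemma coset_word {κ : Type} (w : FreeGroup κ) :
    ∃ (ι : Type) (_ : Finite ι) (W : FreeGroup ι) (j : ι → κ),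
      ∀ (G : Type u) [Group G] (g : κ → G), ∃ P : ι → G, ∀ h : κ → G,
        FreeGroup.lift (fun i => g i * h i) w =
          FreeGroup.lift (fun i => P i * h (j i) * (P i)⁻¹) W * FreeGroup.lift g w := by
  induction w using FreeGroup.induction_on with
  | C1 =>
    refine ⟨Empty, inferInstance, 1, Empty.elim, ?_⟩
    intro G _ g
    refine ⟨Empty.elim, fun h => ?_⟩
    rw [map_one, map_one, map_one, one_mul]
  | of i =>
    refine ⟨Unit, inferInstance, FreeGroup.of (), fun _ => i, ?_⟩
    intro G _ g
    refine ⟨fun _ => g i, fun h => ?_⟩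
    simp only [FreeGroup.lift_apply_of]
    group
  | inv_of i _ =>
    refine ⟨Unit, inferInstance, (FreeGroup.of ())⁻¹, fun _ => i, ?_⟩
    intro G _ g
    refine ⟨fun _ => 1, fun h => ?_⟩
    simp only [map_inv, FreeGroup.lift_apply_of]
    group
  | mul w w' h h' =>
    obtain ⟨ι, _, W, j, H⟩ := h
    obtain ⟨ι', _, W', j', H'⟩ := h'
    refine ⟨ι ⊕ ι', inferInstance, FreeGroup.map Sum.inl W * FreeGroup.map Sum.inr W',
      Sum.elim j j', ?_⟩
    intro G _ g
    obtain ⟨P, hP⟩ := H G g
    obtain ⟨P', hP'⟩ := H' G g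
    refine ⟨Sum.elim P (fun i => FreeGroup.lift g w * P' i), fun h => ?_⟩
    have e1 : FreeGroup.lift (fun i : ι ⊕ ι' =>
        Sum.elim P (fun i => FreeGroup.lift g w * P' i) i * h (Sum.elim j j' i) *
          (Sum.elim P (fun i => FreeGroup.lift g w * P' i) i)⁻¹) (FreeGroup.map Sum.inl W) =
        FreeGroup.lift (fun i => P i * h (j i) * (P i)⁻¹) W := by
      have : (FreeGroup.lift (fun i : ι ⊕ ι' =>
        Sum.elim P (fun i => FreeGroup.lift g w * P' i) i * h (Sum.elim j j' i) *
          (Sum.elim P (fun i => FreeGroup.lift g w * P' i) i)⁻¹)).comp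
            (FreeGroup.map Sum.inl) = FreeGroup.lift (fun i => P i * h (j i) * (P i)⁻¹) := by
        apply FreeGroup.ext_hom
        intro i
        simp
      exact DFunLike.congr_fun this W
    have e2 : FreeGroup.lift (fun i : ι ⊕ ι' =>
        Sum.elim P (fun i => FreeGroup.lift g w * P' i) i * h (Sum.elim j j' i) *
          (Sum.elim P (fun i => FreeGroup.lift g w * P' i) i)⁻¹) (FreeGroup.map Sum.inr W') =
        FreeGroup.lift g w * FreeGroup.lift (fun i => P' i * h (j' i) * (P' i)⁻¹) W' *
          (FreeGroup.lift g w)⁻¹ := by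
      have : (FreeGroup.lift (fun i : ι ⊕ ι' =>
        Sum.elim P (fun i => FreeGroup.lift g w * P' i) i * h (Sum.elim j j' i) *
          (Sum.elim P (fun i => FreeGroup.lift g w * P' i) i)⁻¹)).comp
            (FreeGroup.map Sum.inr) =
          ((MulAut.conj (FreeGroup.lift g w)).toMonoidHom).comp
            (FreeGroup.lift (fun i => P' i * h (j' i) * (P' i)⁻¹)) := by
        apply FreeGroup.ext_hom
        intro i
        simp only [MonoidHom.comp_apply, FreeGroup.map.of, FreeGroup.lift_apply_of,
          Sum.elim_inr, MulEquiv.coe_toMonoidHom, MulAut.conj_apply]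
        group
      exact DFunLike.congr_fun this W'
    rw [map_mul, hP, hP', map_mul, e1, e2, map_mul]
    group

/-- The density theorem on the cosets of a subgroup of a power of a normal subgroup. -/
theorem coset_density (d c k : ℕ) (w : FreeGroup (Fin k)) :
    ∃ C : ℕ, ∀ (G : Type u) [Group G] (H : Subgroup G) [H.Normal] [Finite H] (n : ℕ),
      Nat.card H ≤ 2 ^ n →
      Nil d (⁅(⊤ : Subgroup H).lowerCentralSeries c, (⊤ : Subgroup H).lowerCentralSeries c⁆ :
        Subgroup H) →
      ∀ (Y : Subgroup (Fin k → H)) (g : Fin k → G),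
        (∀ h ∈ Y, FreeGroup.lift (fun i => g i * (h i : G)) w = 1) ∨
          Nat.card Y ≤ (n + 2) ^ C *
            Nat.card {h : Fin k → H //
              h ∈ Y ∧ FreeGroup.lift (fun i => g i * (h i : G)) w ≠ 1} := by
  obtain ⟨ι, _, W, j, hW⟩ := coset_word.{u} w
  obtain ⟨C, hC⟩ := PV.all.{u} (ι := ι) c d
    (FreeGroup.map Sum.inl W * FreeGroup.of (Sum.inr 0))
  refine ⟨2 * C, ?_⟩
  intro G _ H _ _ n hn hnil Y g
  obtain ⟨P, hP⟩ := hW G g
  by_cases hg : FreeGroup.lift g w ∈ H
  · -- the constant lies in the subgroup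
    let p : ι → Y →* H := fun i =>
      ((MulAut.conjNormal (P i)).toMonoidHom : H →* H).comp
        ((Pi.evalMonoidHom (fun _ : Fin k => H) (j i)).comp Y.subtype)
    let K : Subgroup H := (mShape c).sub H
    have hK : K = ⁅(⊤ : Subgroup H).lowerCentralSeries c,
        (⊤ : Subgroup H).lowerCentralSeries c⁆ := by
      change ⁅(lcsShape c).sub H, (lcsShape c).sub H⁆ = _
      rw [lcsShape_sub]
    have hKn : Nil d K := by rw [hK]; exact hnil
    obtain ⟨act, δ, hδ⟩ := exists_conj H K
    have hKc : Nat.card K ≤ 2 ^ n := (Subgroup.card_le_card_group K).trans hn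
    have hval : ∀ h : Y, ((wv p h (fun _ => (⟨FreeGroup.lift g w, hg⟩ : H))
        (FreeGroup.map Sum.inl W * FreeGroup.of (Sum.inr 0)) : H) : G) =
          FreeGroup.lift (fun i => g i * (h.1 i : G)) w := by
      intro h
      rw [hP (fun i => (h.1 i : G)), map_mul, wv_inr, Subgroup.coe_mul]
      congr 1
      have : (H.subtype.comp (wv p h (fun _ : ℕ => (⟨FreeGroup.lift g w, hg⟩ : H)))).comp
          (FreeGroup.map Sum.inl) =
          FreeGroup.lift (fun i => P i * (h.1 (j i) : G) * (P i)⁻¹) := by
        apply FreeGroup.ext_hom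
        intro i
        simp [p]
      exact DFunLike.congr_fun this W
    have hiff : ∀ h : Y, wv p h (fun _ => (⟨FreeGroup.lift g w, hg⟩ : H))
        (FreeGroup.map Sum.inl W * FreeGroup.of (Sum.inr 0)) = 1 ↔
          FreeGroup.lift (fun i => g i * (h.1 i : G)) w = 1 := by
      intro h
      rw [← hval h, OneMemClass.coe_eq_one]
    rcases hC H Y p K δ n n hKn (fun k hk _ h => hδ k hk h) hn hKc
        (fun _ => (⟨FreeGroup.lift g w, hg⟩ : H)) with h | h
    · left
      intro x hx
      exact (hiff ⟨x, hx⟩).mp (h ⟨x, hx⟩)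
    · right
      refine h.trans (Nat.mul_le_mul ?_ ?_)
      · rw [pow_mul]
        apply Nat.pow_le_pow_left
        nlinarith
      · refine Nat.card_le_card_of_injective (fun x => ⟨x.1.1, x.1.2, ?_⟩) ?_
        · intro hx
          exact x.2 ((hiff x.1).mpr hx)
        · intro x y hxy
          apply Subtype.ext
          apply Subtype.ext
          have := congrArg Subtype.val hxy
          exact this
  · -- the constant does not lie in the subgroup: no value is trivial
    right
    have hne : ∀ h : Fin k → H, FreeGroup.lift (fun i => g i * (h i : G)) w ≠ 1 := by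
      intro h h1
      apply hg
      rw [hP (fun i => (h i : G))] at h1
      have h2 : FreeGroup.lift (fun i => P i * (h (j i) : G) * (P i)⁻¹) W ∈ H := by
        have : (⊤ : Subgroup (FreeGroup ι)) ≤
            H.comap (FreeGroup.lift (fun i => P i * (h (j i) : G) * (P i)⁻¹)) := by
          rw [← FreeGroup.closure_range_of, Subgroup.closure_le]
          rintro _ ⟨i, rfl⟩
          change FreeGroup.lift _ (FreeGroup.of i) ∈ H
          rw [FreeGroup.lift_apply_of]
          exact (inferInstance : H.Normal).conj_mem _ (h (j i)).2 _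
        exact this (Subgroup.mem_top W)
      rw [eq_inv_of_mul_eq_one_right h1]
      exact H.inv_mem h2
    calc Nat.card Y ≤ Nat.card
          {h : Fin k → H // h ∈ Y ∧ FreeGroup.lift (fun i => g i * (h i : G)) w ≠ 1} :=
          Nat.card_le_card_of_injective (fun h => ⟨h.1, h.2, hne h.1⟩) (fun x y hxy => by
            have := congrArg Subtype.val hxy
            exact Subtype.ext this)
      _ ≤ _ := Nat.le_mul_of_pos_left _ (by positivity)

/-- The density theorem for the words of an outer commutator subgroup. -/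
theorem outer_density (d k : ℕ) (s : Shape) (w : FreeGroup (Fin k))
    (hw : w ∈ s.sub (FreeGroup (Fin k))) :
    ∃ C : ℕ, ∀ (G : Type u) [Group G] [Finite G] (n : ℕ),
      Nat.card G ≤ 2 ^ n → Nil d (s.sub G) →
      ∀ (Y : Subgroup (Fin k → G)) (g : Fin k → G),
        (∀ h ∈ Y, FreeGroup.lift (fun i => g i * h i) w = 1) ∨
          Nat.card Y ≤ (n + 2) ^ C *
            Nat.card {h : Fin k → G // h ∈ Y ∧ FreeGroup.lift (fun i => g i * h i) w ≠ 1} := by
  let θ : FreeGroup (Fin k) →* FreeGroup (Fin k ⊕ Fin k) :=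
    FreeGroup.lift fun i => FreeGroup.of (Sum.inr i) * FreeGroup.of (Sum.inl i)
  obtain ⟨C, hC⟩ := dens_U.{u} (ι := Fin k) (κ := Fin k) d s (θ w) (s.mem_of_mem θ hw)
  refine ⟨2 * C, ?_⟩
  intro G _ _ n hn hnil Y g
  let p : Fin k → Y →* G := fun i => (Pi.evalMonoidHom (fun _ : Fin k => G) i).comp Y.subtype
  obtain ⟨act, δ, hδ⟩ := exists_conj G (s.sub G)
  have hKc : Nat.card (s.sub G) ≤ 2 ^ n := (Subgroup.card_le_card_group _).trans hn
  have hval : ∀ h : Y, wv p h g (θ w) = FreeGroup.lift (fun i => g i * h.1 i) w := by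
    intro h
    have : (wv p h g).comp θ = FreeGroup.lift (fun i => g i * h.1 i) := by
      apply FreeGroup.ext_hom
      intro i
      simp [θ, p]
    exact DFunLike.congr_fun this w
  rcases hC G Y p (s.sub G) δ n n hnil (fun k hk _ h => hδ k hk h) hn hKc g with h | h
  · left
    intro x hx
    rw [← hval ⟨x, hx⟩]
    exact h ⟨x, hx⟩
  · right
    refine h.trans (Nat.mul_le_mul ?_ ?_)
    · rw [pow_mul]
      apply Nat.pow_le_pow_left
      nlinarith
    · refine Nat.card_le_card_of_injective (fun x => ⟨x.1.1, x.1.2, ?_⟩) ?_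
      · rw [← hval x.1]
        exact x.2
      · intro x y hxy
        apply Subtype.ext
        apply Subtype.ext
        have := congrArg Subtype.val hxy
        exact this

end Pool.Agent.BBN
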