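import Pool.Agent.BBN.Good

/-!
The uncertainty principle for small translation invariant groups of functions, and the density
of violations of the words of an outer commutator subgroup.
-/

namespace Pool.Agent.BBN

open scoped commutatorElement
open Pool.Agent.BBG

universe u

set_option linter.unusedSectionVars false

section Unc
variable {X : Type*} [Group X] [Finite X] {W : Type*} [Group W] [Finite W]

lemma exists_points : ∀ (T : ℕ) (L : Subgroup (X → W)), Nat.card L ≤ 2 ^ T →
    ∃ Y : Fin T → X, ∀ f ∈ L, (∀ i, f (Y i) = 1) → f = 1 := by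
  intro T
  induction T with
  | zero =>
    intro L hL
    refine ⟨Fin.elim0, ?_⟩
    intro f hf _
    have h1 : Nat.card L ≤ 1 := by simpa using hL
    have : Subsingleton L := Finite.card_le_one_iff_subsingleton.mp h1
    have h2 : (⟨f, hf⟩ : L) = 1 := Subsingleton.elim _ _
    exact congrArg Subtype.val h2
  | succ T ih =>
    intro L hL
    by_cases hb : ∀ f ∈ L, f = 1
    · exact ⟨fun _ => 1, fun f hf _ => hb f hf⟩
    · push Not at hb
      obtain ⟨f₀, hf₀, hne⟩ := hb
      obtain ⟨x₀, hx₀⟩ := Function.ne_iff.mp hne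
      let L' : Subgroup (X → W) := L ⊓ (MonoidHom.ker (Pi.evalMonoidHom (fun _ : X => W) x₀))
      have hmem : ∀ f, f ∈ L' ↔ f ∈ L ∧ f x₀ = 1 := by
        intro f
        rw [Subgroup.mem_inf, MonoidHom.mem_ker]
        rfl
      have hlt : L' < L := by
        refine lt_of_le_of_ne inf_le_left ?_
        intro he
        have h1 : f₀ ∈ L' := by rw [he]; exact hf₀
        exact hx₀ ((hmem f₀).mp h1).2
      have h2 := two_card_le hlt
      obtain ⟨Y, hY⟩ := ih L' (by
        have : 2 * Nat.card L' ≤ 2 * 2 ^ T := by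
          calc 2 * Nat.card L' ≤ Nat.card L := h2
            _ ≤ 2 ^ (T + 1) := hL
            _ = 2 * 2 ^ T := by ring
        omega)
      refine ⟨Fin.cons x₀ Y, ?_⟩
      intro f hf h
      apply hY f
      · rw [hmem]
        exact ⟨hf, by simpa using h 0⟩
      · intro i
        simpa using h i.succ

/-- The uncertainty principle. -/
theorem uncertainty {T : ℕ} (L : Subgroup (X → W)) (hL : Nat.card L ≤ 2 ^ T)
    (htr : ∀ f ∈ L, ∀ y : X, (fun x => f (y * x)) ∈ L) (f : X → W) (hf : f ∈ L) (hne : f ≠ 1) :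
    Nat.card X ≤ T * Nat.card {x // f x ≠ 1} := by
  obtain ⟨Y, hY⟩ := exists_points T L hL
  have h1 : ∀ z : X, ∃ i, f (z * Y i) ≠ 1 := by
    intro z
    by_contra hcon
    push Not at hcon
    have h2 := hY _ (htr f hf z) hcon
    apply hne
    funext x
    have := congrFun h2 (z⁻¹ * x)
    simpa using this
  choose i hi using h1
  have hinj : Function.Injective
      (fun z : X => ((i z, ⟨z * Y (i z), hi z⟩) : Fin T × {x // f x ≠ 1})) := by
    intro z z' h
    have h1 : i z = i z' := congrArg Prod.fst h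
    have h2 : z * Y (i z) = z' * Y (i z') := congrArg (fun p => (Prod.snd p).1) h
    rw [h1] at h2
    exact mul_right_cancel h2
  have := Nat.card_le_card_of_injective _ hinj
  rwa [Nat.card_prod, Nat.card_fin] at this

end Unc

section Pair
variable {W W₁ W₂ : Type*} [Group W] [Group W₁] [Group W₂]

/-- Two jointly injective homomorphisms detect smallness. -/
lemma Small.pair {M₁ M₂ : ℕ} (θ₁ : W →* W₁) (θ₂ : W →* W₂)
    (hθ : ∀ e, θ₁ e = 1 → θ₂ e = 1 → e = 1) {F : Set W} (h₁ : Small M₁ (θ₁ '' F))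
    (h₂ : Small M₂ (θ₂ '' F)) : Small (M₁ + M₂) F := by
  obtain ⟨L₁, h1, h2, h3⟩ := h₁
  obtain ⟨L₂, h4, h5, h6⟩ := h₂
  let M : Subgroup W := L₁.comap θ₁ ⊓ L₂.comap θ₂
  have hinj : Function.Injective
      (fun f : M => ((⟨θ₁ f, f.2.1⟩, ⟨θ₂ f, f.2.2⟩) : L₁ × L₂)) := by
    intro f g hfg
    apply Subtype.ext
    rw [← mul_inv_eq_one]
    have e1 : θ₁ f.1 = θ₁ g.1 := congrArg (fun y => (Prod.fst y).1) hfg
    have e2 : θ₂ f.1 = θ₂ g.1 := congrArg (fun y => (Prod.snd y).1) hfg
    apply hθ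
    · rw [map_mul, map_inv, e1, mul_inv_cancel]
    · rw [map_mul, map_inv, e2, mul_inv_cancel]
  have : Finite (L₁ × L₂) := Finite.instProd
  refine ⟨M, ?_, Finite.of_injective _ hinj, ?_⟩
  · intro f hf
    exact ⟨h1 ⟨f, hf, rfl⟩, h4 ⟨f, hf, rfl⟩⟩
  · refine (Nat.card_le_card_of_injective _ hinj).trans ?_
    rw [Nat.card_prod, pow_add]
    exact Nat.mul_le_mul h3 h6

end Pair

section U
variable {ι κ : Type}

/-- If the outer commutator subgroup `s(G)` is faithfully represented by the action on the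
nilpotent group `N` together with a crossed homomorphism to `N`, then every word of `s(F)`
vanishes identically or is violated often. -/
theorem dens_U (d : ℕ) (s : Shape) (w : FreeGroup (ι ⊕ κ))
    (hw : w ∈ s.sub (FreeGroup (ι ⊕ κ))) :
    ∃ C : ℕ, ∀ (G : Type u) [Group G] [Finite G] (X : Type u) [Group X] [Finite X]
      (p : ι → X →* G) (N : Type u) [Group N] [Finite N]
      [MulDistribMulAction G N] (δ : Z1 (s.sub G) N) (n e : ℕ), Nil d N →
      (∀ k ∈ s.sub G, (∀ v : N, k • v = v) → δ.val k = 1 → k = 1) →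
      Nat.card G ≤ 2 ^ n → Nat.card N ≤ 2 ^ e → ∀ a : κ → G,
        (∀ x : X, wv p x a w = 1) ∨
          Nat.card X ≤ (n + e + 2) ^ C * Nat.card {x : X // wv p x a w ≠ 1} := by
  obtain ⟨C₁, hC₁⟩ := MC.all.{u} d (plus w)
  obtain ⟨C₂, hC₂⟩ := Good.all.{u} d s (plus w) (s.mem_of_mem plus hw)
  refine ⟨eS 1 (C₁ + 1 + 1) (d + 2) + C₂ + 1, ?_⟩
  intro G _ _ X _ _ p N _ _ _ δ n e hN hinj hG hE a
  by_cases hlaw : ∀ x : X, wv p x a w = 1
  · exact Or.inl hlaw
  right
  push Not at hlaw
  obtain ⟨x₀, hx₀⟩ := hlaw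
  have hm : 2 ≤ n + e + 2 := by omega
  set m := n + e + 2 with hm'
  have he : e ≤ m ^ 1 := by rw [pow_one]; omega
  let E' := (N → N) × N
  let Ψ : G → E' := fun y => (fun ν => (y • ν) * ν⁻¹, δ.val y)
  let fb : X → X → E' := fun b x => Ψ (wv p (b * x) a w)
  have s1 : Small (m ^ C₁) (Set.range fun (b : X) (y : X × N) =>
      wv p (b * y.1) a w • y.2) := by
    refine Small.mono (hC₁ G X p N n e hN hG hE) ?_ le_rfl
    rintro _ ⟨b, rfl⟩
    refine ⟨Sum.elim a fun i => p i b, ?_⟩
    funext y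
    beta_reduce
    rw [wv_plus]
  have s2 : Gen (m ^ 1) ({fun y : X × N => y.2⁻¹} : Set (X × N → N)) :=
    Gen.mono (Small.single hE (F := {fun y : X × N => y.2⁻¹}) (fun y : X × N => y.2⁻¹)
      (fun f hf => hf)).gen subset_rfl he
  have s12 := Gen.toSmall hm hN hE he (pow_bd hm) (s1.gen.mul s2
    (F'' := Set.range fun (b : X) (y : X × N) => (wv p (b * y.1) a w • y.2) * y.2⁻¹) (by
      rintro _ ⟨b, rfl⟩
      exact ⟨_, ⟨b, rfl⟩, _, rfl, rfl⟩))
  have s3 : Small (m ^ C₂) (Set.range fun (b x : X) => δ.val (wv p (b * x) a w)) := by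
    let θ : (X × Z1 (s.sub G) N → N) →* (X → N) :=
      { toFun := fun f x => f (x, δ)
        map_one' := rfl
        map_mul' := fun _ _ => rfl }
    refine (hC₂ G X p N n e hN hG hE).map θ ?_
    rintro _ ⟨b, rfl⟩
    refine ⟨_, ⟨Sum.elim a fun i => p i b, rfl⟩, ?_⟩
    funext x
    change _ = δ.val (wv p x (Sum.elim a fun i => p i b) (plus w))
    rw [wv_plus]
  let θ₁ : (X → E') →* (X × N → N) :=
    { toFun := fun f y => (f y.1).1 y.2
      map_one' := rfl
      map_mul' := fun _ _ => rfl }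
  let θ₂ : (X → E') →* (X → N) :=
    { toFun := fun f y => (f y).2
      map_one' := rfl
      map_mul' := fun _ _ => rfl }
  have s4 : Small (m ^ (eS 1 (C₁ + 1 + 1) (d + 2) + C₂ + 1)) (Set.range fb) := by
    refine Small.mono (Small.pair θ₁ θ₂ ?_ (Small.mono s12 ?_ le_rfl) (Small.mono s3 ?_ le_rfl))
      subset_rfl (pow_bd hm)
    · intro f h1 h2
      funext x
      refine Prod.ext ?_ (congrFun h2 x)
      funext ν
      exact congrFun h1 (x, ν)
    · rintro _ ⟨_, ⟨b, rfl⟩, rfl⟩
      exact ⟨b, rfl⟩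
    · rintro _ ⟨_, ⟨b, rfl⟩, rfl⟩
      exact ⟨b, rfl⟩
  obtain ⟨L₀, hL₀, hL₀f, hL₀c⟩ := s4
  let L : Subgroup (X → E') := Subgroup.closure (Set.range fb)
  have hLL : L ≤ L₀ := (Subgroup.closure_le L₀).mpr hL₀
  have hLc : Nat.card L ≤ 2 ^ (m ^ (eS 1 (C₁ + 1 + 1) (d + 2) + C₂ + 1)) :=
    (Subgroup.card_le_of_le hLL).trans hL₀c
  have htr : ∀ f ∈ L, ∀ y : X, (fun x => f (y * x)) ∈ L := by
    intro f hf y
    induction hf using Subgroup.closure_induction with
    | mem f hf =>
      obtain ⟨b, rfl⟩ := hf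
      apply Subgroup.subset_closure
      refine ⟨b * y, ?_⟩
      funext x
      change Ψ (wv p (b * y * x) a w) = Ψ (wv p (b * (y * x)) a w)
      rw [mul_assoc]
    | one => exact L.one_mem
    | mul f g _ _ h1 h2 => exact L.mul_mem h1 h2
    | inv f _ h1 => exact L.inv_mem h1
  have hk : ∀ x, wv p x a w ∈ s.sub G := fun x => s.mem_of_mem (wv p x a) hw
  have hΨ : ∀ k ∈ s.sub G, Ψ k = 1 → k = 1 := by
    intro k hk h
    have h1 : (fun ν => (k • ν) * ν⁻¹) = (1 : N → N) := congrArg Prod.fst h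
    have h2 : δ.val k = 1 := congrArg Prod.snd h
    refine hinj k hk ?_ h2
    intro v
    exact mul_inv_eq_one.mp (congrFun h1 v)
  have hne : fb 1 ≠ 1 := by
    intro h
    apply hx₀
    apply hΨ _ (hk x₀)
    have := congrFun h x₀
    change Ψ (wv p (1 * x₀) a w) = 1 at this
    rwa [one_mul] at this
  have hu := uncertainty L hLc htr (fb 1) (Subgroup.subset_closure ⟨1, rfl⟩) hne
  refine hu.trans (Nat.mul_le_mul_left _ ?_)
  refine Nat.card_le_card_of_injective
    (fun x : {x // fb 1 x ≠ 1} => (⟨x.1, ?_⟩ : {x : X // wv p x a w ≠ 1})) ?_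
  · intro h
    apply x.2
    change Ψ (wv p (1 * x.1) a w) = 1
    rw [one_mul, h]
    refine Prod.ext ?_ δ.one
    funext ν
    change ((1 : G) • ν) * ν⁻¹ = 1
    rw [one_smul, mul_inv_cancel]
  · intro x y hxy
    apply Subtype.ext
    have h := congrArg Subtype.val hxy
    exact h

end U

section Conj

/-- A normal subgroup with the action by conjugation, and the inversion as a crossed
homomorphism. -/
lemma exists_conj (G : Type u) [Group G] (K : Subgroup G) [K.Normal] :
    ∃ (_ : MulDistribMulAction G K) (δ : Z1 K K), ∀ k ∈ K, δ.val k = 1 → k = 1 := by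
  let act : MulDistribMulAction G K :=
    { smul := fun g v => MulAut.conjNormal g v
      one_smul := fun v => by
        change MulAut.conjNormal (1 : G) v = v
        rw [map_one]; rfl
      mul_smul := fun g h v => by
        change MulAut.conjNormal (g * h) v = _
        rw [map_mul]; rfl
      smul_one := fun g => by
        change MulAut.conjNormal g (1 : K) = 1
        rw [map_one]
      smul_mul := fun g v v' => by
        change MulAut.conjNormal g (v * v') = _
        rw [map_mul]; rfl }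
  classical
  let δ : Z1 K K := ⟨fun y => if h : y ∈ K then (⟨y, h⟩ : K)⁻¹ else 1, by
    refine ⟨?_, ?_⟩
    · intro k hk k' hk'
      have hkk : k * k' ∈ K := K.mul_mem hk hk'
      simp only [hk, hk', hkk, dif_pos]
      apply Subtype.ext
      change (k * k')⁻¹ = k⁻¹ * ((MulAut.conjNormal k ((⟨k', hk'⟩ : K)⁻¹) : K) : G)
      rw [MulAut.conjNormal_apply]
      change (k * k')⁻¹ = k⁻¹ * (k * k'⁻¹ * k⁻¹)
      group
    · intro g hg
      simp only [hg, dif_neg, not_false_iff]⟩
  refine ⟨act, δ, ?_⟩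
  intro k hk h
  change (if h : k ∈ K then (⟨k, h⟩ : K)⁻¹ else 1) = 1 at h
  rw [dif_pos hk, inv_eq_one] at h
  exact congrArg Subtype.val h

end Conj

end Pool.Agent.BBN
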