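import Pool.Agent.BBN.Small

/-!
Crossed homomorphisms, the group of their evaluations, and the two crossed homomorphisms
attached to a commutator.
-/

namespace Pool.Agent.BBN

open scoped commutatorElement
open Pool.Agent.BBG

universe u

set_option linter.unusedSectionVars false

section Zed
variable {G : Type u} [Group G] (K : Subgroup G) (N : Type u) [Group N]
  [MulDistribMulAction G N]

/-- Crossed homomorphisms `K → N`, extended by one to `G`. -/
def Z1 : Type u :=
  {φ : G → N // (∀ k ∈ K, ∀ k' ∈ K, φ (k * k') = φ k * k • φ k') ∧ ∀ g, g ∉ K → φ g = 1}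

instance [Finite G] [Finite N] : Finite (Z1 K N) :=
  inferInstanceAs (Finite {φ : G → N //
    (∀ k ∈ K, ∀ k' ∈ K, φ (k * k') = φ k * k • φ k') ∧ ∀ g, g ∉ K → φ g = 1})

variable {K N}

/-- The underlying function. -/
def Z1.val (φ : Z1 K N) : G → N := Subtype.val φ

lemma Z1.ext {φ ψ : Z1 K N} (h : ∀ g, φ.val g = ψ.val g) : φ = ψ :=
  Subtype.ext (funext h)

lemma Z1.mul (φ : Z1 K N) {k k' : G} (hk : k ∈ K) (hk' : k' ∈ K) :
    φ.val (k * k') = φ.val k * k • φ.val k' := φ.2.1 k hk k' hk'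

lemma Z1.out (φ : Z1 K N) {g : G} (hg : g ∉ K) : φ.val g = 1 := φ.2.2 g hg

lemma Z1.one (φ : Z1 K N) : φ.val 1 = 1 := by
  have := φ.mul K.one_mem K.one_mem
  rw [mul_one, one_smul] at this
  exact left_eq_mul.mp this

lemma Z1.inv (φ : Z1 K N) {k : G} (hk : k ∈ K) : φ.val k⁻¹ = (k⁻¹ • φ.val k)⁻¹ := by
  have := φ.mul (K.inv_mem hk) hk
  rw [inv_mul_cancel, φ.one] at this
  exact eq_inv_of_mul_eq_one_left this.symm

/-- The trivial crossed homomorphism. -/
def Z1.triv (K : Subgroup G) (N : Type u) [Group N] [MulDistribMulAction G N] : Z1 K N :=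
  ⟨fun _ => 1, fun _ _ _ _ => by simp, fun _ _ => rfl⟩

/-- The homomorphisms `ν ↦ g • νᵢ`. -/
def pG (G N : Type u) [Group G] [Group N] [MulDistribMulAction G N] (m : ℕ) :
    G × Fin m → (Fin m → N) →* N := fun gi =>
  { toFun := fun ν => gi.1 • ν gi.2
    map_one' := smul_one _
    map_mul' := fun _ _ => smul_mul' _ _ _ }

lemma smul_mem_P0 {m : ℕ} (g : G) {q : (Fin m → N) → N} (hq : q ∈ P0 (pG G N m)) :
    (fun ν => g • q ν) ∈ P0 (pG G N m) := by
  rw [P0] at hq
  induction hq using Subgroup.closure_induction with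
  | mem q hq =>
    rcases hq with ⟨b, rfl⟩ | ⟨i, rfl⟩
    · exact const_mem_P0 _ (g • b)
    · have e : (fun ν => g • (pG G N m i) ν) = (pG G N m (g * i.1, i.2) : (Fin m → N) → N) := by
        funext ν
        change g • i.1 • ν i.2 = (g * i.1) • ν i.2
        rw [mul_smul]
      rw [e]
      exact proj_mem_P0 _ _
  | one =>
    convert (P0 (pG G N m)).one_mem using 1
    funext ν
    exact smul_one g
  | mul q q' _ _ h h' =>
    convert (P0 (pG G N m)).mul_mem h h' using 1
    funext ν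
    exact smul_mul' g _ _
  | inv q _ h =>
    convert (P0 (pG G N m)).inv_mem h using 1
    funext ν
    exact smul_inv' g _

/-- The values of crossed homomorphisms are determined by the values at generators. -/
lemma ext_val {m : ℕ} (a : Fin m → G) (ha : Subgroup.closure (Set.range a) = K) (y : G) :
    ∃ q ∈ P0 (pG G N m), ∀ φ : Z1 K N, φ.val y = q (fun i => φ.val (a i)) := by
  by_cases hy : y ∈ K
  · have key : ∀ y, y ∈ Subgroup.closure (Set.range a) →
        ∃ q ∈ P0 (pG G N m), ∀ φ : Z1 K N, φ.val y = q (fun i => φ.val (a i)) := by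
      intro y hy
      induction hy using Subgroup.closure_induction with
      | mem y hy =>
        obtain ⟨i, rfl⟩ := hy
        refine ⟨_, proj_mem_P0 (pG G N m) (1, i), fun φ => ?_⟩
        exact (one_smul G (φ.val (a i))).symm
      | one => exact ⟨1, (P0 (pG G N m)).one_mem, fun φ => φ.one⟩
      | mul y y' hy hy' h h' =>
        obtain ⟨q, hq, e⟩ := h
        obtain ⟨q', hq', e'⟩ := h'
        refine ⟨_, (P0 (pG G N m)).mul_mem hq (smul_mem_P0 y hq'), fun φ => ?_⟩
        rw [φ.mul (ha ▸ hy) (ha ▸ hy'), e, e']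
        rfl
      | inv y hy h =>
        obtain ⟨q, hq, e⟩ := h
        refine ⟨_, (P0 (pG G N m)).inv_mem (smul_mem_P0 y⁻¹ hq), fun φ => ?_⟩
        rw [φ.inv (ha ▸ hy), e]
        rfl
    exact key y (ha ▸ hy)
  · exact ⟨1, (P0 (pG G N m)).one_mem, fun φ => φ.out hy⟩

variable (K N)

/-- The group of functions on crossed homomorphisms generated by the evaluations. -/
def N1s : Subgroup (Z1 K N → N) :=
  Subgroup.closure {q | ∃ (g : G) (y : G), q = fun φ => g • φ.val y}

/-- The group of functions on crossed homomorphisms generated by the evaluations. -/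
def N1 : Type u := ↥(N1s K N)

instance : Group (N1 K N) := inferInstanceAs (Group ↥(N1s K N))

instance [Finite G] [Finite N] : Finite (N1 K N) := inferInstanceAs (Finite ↥(N1s K N))

variable {K N}

/-- Application. -/
def N1.app (q : N1 K N) (φ : Z1 K N) : N := Subtype.val q φ

lemma N1.ext {q q' : N1 K N} (h : ∀ φ, q.app φ = q'.app φ) : q = q' :=
  Subtype.ext (funext h)

@[simp] lemma N1.one_app (φ : Z1 K N) : (1 : N1 K N).app φ = 1 := rfl
@[simp] lemma N1.mul_app (q q' : N1 K N) (φ : Z1 K N) : (q * q').app φ = q.app φ * q'.app φ :=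
  rfl
@[simp] lemma N1.inv_app (q : N1 K N) (φ : Z1 K N) : (q⁻¹).app φ = (q.app φ)⁻¹ := rfl

/-- Application as a homomorphism. -/
def appHom (φ : Z1 K N) : N1 K N →* N :=
  { toFun := fun q => q.app φ, map_one' := rfl, map_mul' := fun _ _ => rfl }

/-- Evaluation. -/
def evN (y : G) : N1 K N :=
  ⟨fun φ => φ.val y, Subgroup.subset_closure ⟨1, y, by funext φ; rw [one_smul]⟩⟩

@[simp] lemma evN_app (y : G) (φ : Z1 K N) : (evN y : N1 K N).app φ = φ.val y := rfl

lemma smul_mem_N1s (c : G) {q : Z1 K N → N} (hq : q ∈ N1s K N) :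
    (fun φ => c • q φ) ∈ N1s K N := by
  rw [N1s] at hq
  induction hq using Subgroup.closure_induction with
  | mem q hq =>
    obtain ⟨g, y, rfl⟩ := hq
    refine Subgroup.subset_closure ⟨c * g, y, ?_⟩
    funext φ
    rw [mul_smul]
  | one =>
    convert (N1s K N).one_mem using 1
    funext φ
    exact smul_one c
  | mul q q' _ _ h h' =>
    convert (N1s K N).mul_mem h h' using 1
    funext φ
    exact smul_mul' c _ _
  | inv q _ h =>
    convert (N1s K N).inv_mem h using 1
    funext φ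
    exact smul_inv' c _

/-- The action on the values. -/
def ps (c : G) (q : N1 K N) : N1 K N := ⟨fun φ => c • q.app φ, smul_mem_N1s c q.2⟩

@[simp] lemma ps_app (c : G) (q : N1 K N) (φ : Z1 K N) : (ps c q).app φ = c • q.app φ := rfl

lemma N1s_ext {m : ℕ} (a : Fin m → G) (ha : Subgroup.closure (Set.range a) = K)
    (q : N1 K N) : ∃ f ∈ P0 (pG G N m), ∀ φ : Z1 K N, q.app φ = f (fun i => φ.val (a i)) := by
  have key : ∀ q ∈ N1s K N, ∃ f ∈ P0 (pG G N m), ∀ φ : Z1 K N, q φ =
      f (fun i => φ.val (a i)) := by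
    intro q hq
    rw [N1s] at hq
    induction hq using Subgroup.closure_induction with
    | mem q hq =>
      obtain ⟨g, y, rfl⟩ := hq
      obtain ⟨f, hf, e⟩ := ext_val (N := N) a ha y
      refine ⟨_, smul_mem_P0 g hf, fun φ => ?_⟩
      beta_reduce
      rw [e]
    | one => exact ⟨1, (P0 (pG G N m)).one_mem, fun φ => rfl⟩
    | mul q q' _ _ h h' =>
      obtain ⟨f, hf, e⟩ := h
      obtain ⟨f', hf', e'⟩ := h'
      refine ⟨_, (P0 (pG G N m)).mul_mem hf hf', fun φ => ?_⟩
      rw [Pi.mul_apply, Pi.mul_apply, e, e']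
    | inv q _ h =>
      obtain ⟨f, hf, e⟩ := h
      refine ⟨_, (P0 (pG G N m)).inv_mem hf, fun φ => ?_⟩
      rw [Pi.inv_apply, Pi.inv_apply, e]
  exact key q.1 q.2

lemma Nil.N1 {d : ℕ} (hN : Nil d N) : Nil d (N1 K N) :=
  Nil.joint (fun φ : Z1 K N => appHom φ) (fun _ h => N1.ext h) (fun _ => hN)

lemma card_N1_le [Finite G] [Finite N] {d n e : ℕ} (hN : Nil d N) (hG : Nat.card G ≤ 2 ^ n)
    (hNc : Nat.card N ≤ 2 ^ e) : Nat.card (N1 K N) ≤ 2 ^ (e * (n * e + 1) ^ (d + 2)) := by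
  obtain ⟨a, -, ha⟩ := exists_gen K (N := n) ((Subgroup.card_le_card_group K).trans hG)
  have hΓ : Nat.card (Fin n → N) ≤ 2 ^ (n * e) := by
    rw [Nat.card_fun, Nat.card_fin, Nat.mul_comm, pow_mul]
    exact Nat.pow_le_pow_left hNc n
  refine le_trans ?_ (card_P0_le hN hΓ hNc (pG G N n))
  choose f hf e using N1s_ext (N := N) a ha
  refine Nat.card_le_card_of_injective (fun q : N1 K N => (⟨f q, hf q⟩ : ↥(P0 (pG G N n)))) ?_
  intro q q' h
  have h1 : f q = f q' := congrArg Subtype.val h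
  apply N1.ext
  intro φ
  rw [e, e, h1]

section Act
variable [K.Normal]

/-- The action on crossed homomorphisms. -/
def Z1.act (g : G) (φ : Z1 K N) : Z1 K N := ⟨fun y => g • φ.val (g⁻¹ * y * g), by
  have hc : ∀ y, y ∈ K → g⁻¹ * y * g ∈ K := by
    intro y hy
    have := (inferInstance : K.Normal).conj_mem y hy g⁻¹
    simpa using this
  refine ⟨fun k hk k' hk' => ?_, fun y hy => ?_⟩
  · have e : g⁻¹ * (k * k') * g = (g⁻¹ * k * g) * (g⁻¹ * k' * g) := by group
    beta_reduce
    rw [e, φ.mul (hc k hk) (hc k' hk'), smul_mul', smul_smul, smul_smul]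
    congr 2
    group
  · beta_reduce
    rw [φ.out, smul_one]
    intro h
    apply hy
    have := (inferInstance : K.Normal).conj_mem _ h g
    have e : g * (g⁻¹ * y * g) * g⁻¹ = y := by group
    rwa [e] at this⟩

lemma Z1.act_val (g : G) (φ : Z1 K N) (y : G) :
    (φ.act g).val y = g • φ.val (g⁻¹ * y * g) := rfl

lemma Z1.act_one (φ : Z1 K N) : φ.act 1 = φ := Z1.ext fun y => by
  rw [Z1.act_val]; simp

lemma Z1.act_mul (g h : G) (φ : Z1 K N) : φ.act (g * h) = (φ.act h).act g := Z1.ext fun y => by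
  rw [Z1.act_val, Z1.act_val, Z1.act_val, smul_smul]
  congr 2
  group

lemma tw_mem (g : G) {q : Z1 K N → N} (hq : q ∈ N1s K N) :
    (fun φ => g • q (φ.act g⁻¹)) ∈ N1s K N := by
  rw [N1s] at hq
  induction hq using Subgroup.closure_induction with
  | mem q hq =>
    obtain ⟨h, y, rfl⟩ := hq
    refine Subgroup.subset_closure ⟨g * h * g⁻¹, g * y * g⁻¹, ?_⟩
    funext φ
    beta_reduce
    rw [Z1.act_val, inv_inv, smul_smul, smul_smul, mul_assoc g h]
  | one =>
    convert (N1s K N).one_mem using 1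
    funext φ
    exact smul_one g
  | mul q q' _ _ h h' =>
    convert (N1s K N).mul_mem h h' using 1
    funext φ
    exact smul_mul' g _ _
  | inv q _ h =>
    convert (N1s K N).inv_mem h using 1
    funext φ
    exact smul_inv' g _

instance : SMul G (N1 K N) where
  smul g q := ⟨fun φ => g • q.app (φ.act g⁻¹), tw_mem g q.2⟩

lemma N1.smul_app (g : G) (q : N1 K N) (φ : Z1 K N) :
    (g • q).app φ = g • q.app (φ.act g⁻¹) := rfl

instance : MulDistribMulAction G (N1 K N) where
  one_smul q := N1.ext fun φ => by rw [N1.smul_app, inv_one, Z1.act_one, one_smul]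
  mul_smul g h q := N1.ext fun φ => by
    rw [N1.smul_app, N1.smul_app, N1.smul_app, mul_inv_rev, Z1.act_mul, mul_smul]
  smul_one g := N1.ext fun φ => by rw [N1.smul_app, N1.one_app, N1.one_app, smul_one]
  smul_mul g q q' := N1.ext fun φ => by
    rw [N1.smul_app, N1.mul_app, N1.mul_app, smul_mul', N1.smul_app, N1.smul_app]

/-- The crossed homomorphism `y ↦ c⁻¹ [c, y]`. -/
noncomputable def Bd (K : Subgroup G) [K.Normal] (N : Type u) [Group N]
    [MulDistribMulAction G N] (c : G) (L : Subgroup G) (h : ∀ y ∈ L, ⁅c, y⁆ ∈ K) :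
    Z1 L (N1 K N) := by
  classical
  refine ⟨fun y => if y ∈ L then ps c⁻¹ (evN ⁅c, y⁆) else 1, ?_, ?_⟩
  · intro y hy y' hy'
    simp only [hy, hy', L.mul_mem hy hy', if_true]
    have e : ⁅c, y * y'⁆ = ⁅c, y⁆ * (y * ⁅c, y'⁆ * y⁻¹) := by
      simp only [commutatorElement_def]; group
    have hc : y * ⁅c, y'⁆ * y⁻¹ ∈ K := (inferInstance : K.Normal).conj_mem _ (h y' hy') y
    apply N1.ext
    intro φ
    rw [N1.mul_app, N1.smul_app, ps_app, ps_app, ps_app, evN_app, evN_app, evN_app,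
      Z1.act_val, inv_inv, e, φ.mul (h y hy) hc, smul_mul', smul_smul, smul_smul, smul_smul]
    congr 2
    simp only [commutatorElement_def]
    group
  · intro g hg
    simp only [hg, if_false]

lemma Bd_val (c : G) (L : Subgroup G) (h : ∀ y ∈ L, ⁅c, y⁆ ∈ K) {y : G} (hy : y ∈ L) :
    (Bd K N c L h).val y = ps c⁻¹ (evN ⁅c, y⁆) := by
  classical
  change (if y ∈ L then ps c⁻¹ (evN ⁅c, y⁆) else 1) = _
  rw [if_pos hy]

lemma Bd_swap {K₁ K₂ : Subgroup G} {a b : G} (ha : a ∈ K₁) (hb : b ∈ K₂)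
    (h₁ : ∀ y ∈ K₁, ⁅b, y⁆ ∈ K) (h₂ : ∀ y ∈ K₂, ⁅a, y⁆ ∈ K) (φ : Z1 K N) :
    ((Bd K N b K₁ h₁).val a).app φ =
      (a • b⁻¹ • ((Bd K N a K₂ h₂).val b).app φ)⁻¹ := by
  rw [Bd_val b K₁ h₁ ha, Bd_val a K₂ h₂ hb, ps_app, ps_app, evN_app, evN_app,
    ← commutatorElement_inv a b, φ.inv (h₂ b hb), smul_inv', smul_smul, smul_smul, smul_smul]
  congr 2
  simp only [commutatorElement_def]
  group

lemma val_comm {K₁ : Subgroup G} {a b : G} (ha : a ∈ K₁)
    (h₁ : ∀ y ∈ K₁, ⁅b, y⁆ ∈ K) (φ : Z1 K N) :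
    φ.val ⁅a, b⁆ = ((a * b * a⁻¹) • ((Bd K N b K₁ h₁).val a).app φ)⁻¹ := by
  rw [Bd_val b K₁ h₁ ha, ps_app, evN_app, ← commutatorElement_inv b a, φ.inv (h₁ a ha),
    smul_smul]
  congr 2
  simp only [commutatorElement_def]
  group

end Act

end Zed

end Pool.Agent.BBN
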