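import Mathlib

/-!
Outer commutator subgroups, and the evaluation of words with parameters.
-/

namespace Pool.Agent.BBN

open scoped commutatorElement

/-- Shapes of outer commutator words. -/
inductive Shape : Type
  | leaf : Shape
  | node : Shape → Shape → Shape

/-- The outer commutator subgroup of a given shape: the whole group for a leaf, and the
commutator subgroup of the two subgroups of the branches for a node. -/
def Shape.sub : Shape → (G : Type*) → [Group G] → Subgroup G
  | .leaf, _, _ => ⊤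
  | .node l r, G, _ => ⁅l.sub G, r.sub G⁆

instance Shape.normal (s : Shape) (G : Type*) [Group G] : (s.sub G).Normal := by
  induction s with
  | leaf => exact (inferInstance : (⊤ : Subgroup G).Normal)
  | node l r hl hr => exact Subgroup.commutator_normal (l.sub G) (r.sub G)

lemma Shape.map_le (s : Shape) {G H : Type*} [Group G] [Group H] (f : G →* H) :
    (s.sub G).map f ≤ s.sub H := by
  induction s with
  | leaf => exact le_top
  | node l r hl hr =>
    change (⁅l.sub G, r.sub G⁆).map f ≤ ⁅l.sub H, r.sub H⁆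
    rw [Subgroup.map_commutator]
    exact Subgroup.commutator_mono hl hr

lemma Shape.mem_of_mem (s : Shape) {G H : Type*} [Group G] [Group H] (f : G →* H) {w : G}
    (hw : w ∈ s.sub G) : f w ∈ s.sub H :=
  s.map_le f (Subgroup.mem_map_of_mem f hw)

section Word
variable {ι κ : Type}

/-- Evaluation of a word in variables (from `ι`) and parameters (from `κ`) at an element `x` of
a group `X`: the variables take the values of given homomorphisms `X → G`. -/
def wv {G X : Type*} [Group G] [Group X] (p : ι → X →* G) (x : X) (a : κ → G) :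
    FreeGroup (ι ⊕ κ) →* G :=
  FreeGroup.lift (Sum.elim (fun i => p i x) a)

@[simp] lemma wv_inl {G X : Type*} [Group G] [Group X] (p : ι → X →* G) (x : X) (a : κ → G)
    (i : ι) : wv p x a (FreeGroup.of (Sum.inl i)) = p i x := by
  simp [wv]

@[simp] lemma wv_inr {G X : Type*} [Group G] [Group X] (p : ι → X →* G) (x : X) (a : κ → G)
    (j : κ) : wv p x a (FreeGroup.of (Sum.inr j)) = a j := by
  simp [wv]

/-- The substitution `xᵢ ↦ yᵢ xᵢ`. -/
def plus : FreeGroup (ι ⊕ κ) →* FreeGroup (ι ⊕ (κ ⊕ ι)) :=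
  FreeGroup.lift (Sum.elim
    (fun i => FreeGroup.of (Sum.inr (Sum.inr i)) * FreeGroup.of (Sum.inl i))
    (fun j => FreeGroup.of (Sum.inr (Sum.inl j))))

lemma wv_plus {G X : Type*} [Group G] [Group X] (p : ι → X →* G) (x b : X) (a : κ → G)
    (w : FreeGroup (ι ⊕ κ)) : wv p x (Sum.elim a fun i => p i b) (plus w) = wv p (b * x) a w := by
  have : (wv p x (Sum.elim a fun i => p i b)).comp plus = wv p (b * x) a := by
    apply FreeGroup.ext_hom
    intro j
    rcases j with i | j
    · simp [plus, wv]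
    · simp [plus, wv]
  exact DFunLike.congr_fun this w

end Word

section Bounds

lemma pow_bd {m a b : ℕ} (hm : 2 ≤ m) : m ^ a + m ^ b ≤ m ^ (a + b + 1) := by
  have h1 : m ^ a ≤ m ^ (a + b) := Nat.pow_le_pow_right (by omega) (by omega)
  have h2 : m ^ b ≤ m ^ (a + b) := Nat.pow_le_pow_right (by omega) (by omega)
  calc m ^ a + m ^ b ≤ m ^ (a + b) + m ^ (a + b) := Nat.add_le_add h1 h2
    _ = m ^ (a + b) * 2 := by ring
    _ ≤ m ^ (a + b) * m := Nat.mul_le_mul_left _ hm
    _ = _ := by ring

/-- The exponent for the passage from generators to groups. -/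
def eS (E A D : ℕ) : ℕ := E + (E + A + 1) * D

/-- The exponent for pairings. -/
def eP (A B D : ℕ) : ℕ := A + (B + 1) * D

lemma succ_bd {m a x : ℕ} (hm : 2 ≤ m) (h : x ≤ m ^ a) : x + 1 ≤ m ^ (a + 1) := by
  have h1 := pow_bd (m := m) (a := a) (b := 0) hm
  rw [pow_zero] at h1
  exact (Nat.add_le_add_right h 1).trans h1

lemma bdS {m E A D e k : ℕ} (hm : 2 ≤ m) (he : e ≤ m ^ E) (hk : k ≤ m ^ A) :
    e * (e * k + 1) ^ D ≤ m ^ (eS E A D) := by
  have h1 : e * k ≤ m ^ (E + A) := by
    rw [pow_add]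
    exact Nat.mul_le_mul he hk
  rw [eS, pow_add, pow_mul]
  exact Nat.mul_le_mul he (Nat.pow_le_pow_left (succ_bd hm h1) D)

lemma bdP {m A B D M₁ M₂ : ℕ} (hm : 2 ≤ m) (h₁ : M₁ ≤ m ^ A) (h₂ : M₂ ≤ m ^ B) :
    M₁ * (M₂ + 1) ^ D ≤ m ^ (eP A B D) := by
  rw [eP, pow_add, pow_mul]
  exact Nat.mul_le_mul h₁ (Nat.pow_le_pow_left (succ_bd hm h₂) D)

end Bounds

end Pool.Agent.BBN
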