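import Pool.Agent.BBN.Der
import Pool.Agent.BBN.Word

/-!
Words: the functions `(x, ν) ↦ w(x) • ν` are small, and so are the evaluations of crossed
homomorphisms at the values of the words of an outer commutator subgroup.
-/

namespace Pool.Agent.BBN

open scoped commutatorElement
open Pool.Agent.BBG

universe u

set_option linter.unusedSectionVars false

section Tools
variable {G : Type*} [Group G] {N : Type*} [Group N]

/-- Precomposition. -/
def preH (N : Type*) [Group N] {Y Y' : Type*} (τ : Y → Y') : (Y' → N) →* (Y → N) where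
  toFun f := fun y => f (τ y)
  map_one' := rfl
  map_mul' _ _ := rfl

lemma Gen.mono {k l : ℕ} {F F' : Set N} (h : Gen k F) (hF : F' ⊆ F) (hk : k ≤ l) :
    Gen l F' := by
  obtain ⟨I, hI, w, hc, hw⟩ := h
  exact ⟨I, hI, w, hc.trans hk, hF.trans hw⟩

lemma Gen.toSmall {Y : Type*} [Finite Y] [Finite N] {d k e m E A : ℕ} (hm : 2 ≤ m)
    (hN : Nil d N) (hNc : Nat.card N ≤ 2 ^ e) (he : e ≤ m ^ E) (hk : k ≤ m ^ A)
    {F : Set (Y → N)} (h : Gen k F) : Small (m ^ (eS E A (d + 2))) F :=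
  Small.mono (Gen.small hN hNc h) subset_rfl (bdS hm he hk)

variable [MulDistribMulAction G N]

/-- The homomorphisms `ν ↦ g • ν`. -/
def pS (G N : Type*) [Group G] [Group N] [MulDistribMulAction G N] : G → N →* N := fun g =>
  { toFun := fun ν => g • ν, map_one' := smul_one g, map_mul' := smul_mul' g }

/-- The pairing rule for actions. -/
lemma actPair {Y T : Type*} [Finite Y] [Finite N] {d m A B : ℕ} (hm : 2 ≤ m) (hN : Nil d N)
    (u : T → Y → G) (z : T → Y → N)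
    (h₁ : Small (m ^ A) (Set.range fun t (y : Y × N) => u t y.1 • y.2))
    (h₂ : Small (m ^ B) (Set.range z)) :
    Gen (m ^ (eP A B (d + 2))) (Set.range fun t y => u t y • z t y) := by
  refine Gen.mono (pairing (Z := N) (Λ := N) (D := d + 2) id (P0 (pS G N))
    (fun q hq => polyF_P0 hN _ hq) h₁ h₂ ?_ ?_) subset_rfl (bdP hm le_rfl le_rfl)
  · rintro _ ⟨t, rfl⟩ y
    exact ⟨_, proj_mem_P0 (pS G N) (u t y), fun z => rfl⟩
  · rintro _ ⟨t, rfl⟩
    exact ⟨_, ⟨t, rfl⟩, z t, ⟨t, rfl⟩, rfl⟩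

end Tools

section Word
variable {ι κ : Type}

/-- The functions `(x, ν) ↦ w(x) • ν` are small. -/
def MC (d : ℕ) (w : FreeGroup (ι ⊕ κ)) : Prop :=
  ∃ C : ℕ, ∀ (G : Type u) [Group G] [Finite G] (X : Type u) [Group X] [Finite X]
    (p : ι → X →* G) (N : Type u) [Group N] [Finite N]
    [MulDistribMulAction G N] (n e : ℕ), Nil d N → Nat.card G ≤ 2 ^ n → Nat.card N ≤ 2 ^ e →
      Small ((n + e + 2) ^ C)
        (Set.range fun (a : κ → G) (y : X × N) => wv p y.1 a w • y.2)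

lemma mc_pre {M : ℕ} {G X Y N : Type*} [Group G] [Group X] [Group N] [MulDistribMulAction G N]
    {p : ι → X →* G} {w : FreeGroup (ι ⊕ κ)}
    (h : Small M (Set.range fun (a : κ → G) (y : X × N) => wv p y.1 a w • y.2)) (τ : Y → X) :
    Small M (Set.range fun (a : κ → G) (y : Y × N) => wv p (τ y.1) a w • y.2) := by
  refine h.map (preH N fun y : Y × N => (τ y.1, y.2)) ?_
  rintro _ ⟨a, rfl⟩
  exact ⟨_, ⟨a, rfl⟩, rfl⟩

lemma MC.mul {d : ℕ} {w w' : FreeGroup (ι ⊕ κ)} (h : MC.{u} d w) (h' : MC.{u} d w') :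
    MC.{u} d (w * w') := by
  obtain ⟨C, h⟩ := h
  obtain ⟨C', h'⟩ := h'
  refine ⟨eS 1 (eP C C' (d + 2)) (d + 2), ?_⟩
  intro G _ _ X _ _ p N _ _ _ n e hN hG hE
  have hm : 2 ≤ n + e + 2 := by omega
  have h1 := mc_pre (h G X p N n e hN hG hE) (fun y : X × N => y.1)
  have h2 := h' G X p N n e hN hG hE
  have h3 := actPair hm hN (fun (a : κ → G) (y : X × N) => wv p y.1 a w)
    (fun (a : κ → G) (y : X × N) => wv p y.1 a w' • y.2) h1 h2
  refine Small.mono (Gen.toSmall hm hN hE (by rw [pow_one]; omega) le_rfl h3) ?_ le_rfl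
  rintro _ ⟨a, rfl⟩
  refine ⟨a, ?_⟩
  funext y
  beta_reduce
  rw [map_mul, mul_smul]

/-- The bound for the constants. -/
lemma bd_const {d n e : ℕ} : e * (e + 1) ^ (d + 2) ≤ (n + e + 2) ^ (d + 3) := by
  calc e * (e + 1) ^ (d + 2) ≤ (n + e + 2) * (n + e + 2) ^ (d + 2) :=
        Nat.mul_le_mul (by omega) (Nat.pow_le_pow_left (by omega) _)
    _ = _ := by ring

lemma small_const {G X N : Type*} [Group G] [Group N] [Finite N]
    [MulDistribMulAction G N] {d n e : ℕ} (hN : Nil d N) (hNc : Nat.card N ≤ 2 ^ e)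
    {F : Set (X × N → N)} (hF : ∀ f ∈ F, ∃ g : G, f = fun y => g • y.2) :
    Small ((n + e + 2) ^ (d + 3)) F := by
  have h1 : Small (e * (e + 1) ^ (d + 2)) ((P0 (pS G N) : Subgroup (N → N)) : Set (N → N)) :=
    ⟨P0 (pS G N), subset_rfl, inferInstance, card_P0_le hN hNc hNc (pS G N)⟩
  refine Small.mono (h1.map (preH N fun y : X × N => y.2) ?_) subset_rfl bd_const
  intro f hf
  obtain ⟨g, rfl⟩ := hF f hf
  exact ⟨_, proj_mem_P0 (pS G N) g, rfl⟩

lemma MC.gen (d : ℕ) (j : ι ⊕ κ) :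
    MC.{u} d (FreeGroup.of j) ∧ MC.{u} d (FreeGroup.of j)⁻¹ := by
  rcases j with i | j
  · constructor
    · refine ⟨1, ?_⟩
      intro G _ _ X _ _ p N _ _ _ n e hN hG hE
      refine Small.mono (Small.single hE (fun y : X × N => p i y.1 • y.2) ?_)
        subset_rfl (by rw [pow_one]; omega)
      rintro _ ⟨a, rfl⟩
      funext x
      beta_reduce
      rw [wv_inl]
    · refine ⟨1, ?_⟩
      intro G _ _ X _ _ p N _ _ _ n e hN hG hE
      refine Small.mono (Small.single hE (fun y : X × N => (p i y.1)⁻¹ • y.2) ?_)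
        subset_rfl (by rw [pow_one]; omega)
      rintro _ ⟨a, rfl⟩
      funext x
      beta_reduce
      rw [map_inv, wv_inl]
  · constructor
    · refine ⟨d + 3, ?_⟩
      intro G _ _ X _ _ p N _ _ _ n e hN hG hE
      refine small_const (G := G) hN hE ?_
      rintro _ ⟨a, rfl⟩
      refine ⟨a j, ?_⟩
      funext x
      beta_reduce
      rw [wv_inr]
    · refine ⟨d + 3, ?_⟩
      intro G _ _ X _ _ p N _ _ _ n e hN hG hE
      refine small_const (G := G) hN hE ?_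
      rintro _ ⟨a, rfl⟩
      refine ⟨(a j)⁻¹, ?_⟩
      funext x
      beta_reduce
      rw [map_inv, wv_inr]

lemma MC.one (d : ℕ) : MC.{u} d (1 : FreeGroup (ι ⊕ κ)) := by
  refine ⟨d + 3, ?_⟩
  intro G _ _ X _ _ p N _ _ _ n e hN hG hE
  refine small_const (G := G) hN hE ?_
  rintro _ ⟨a, rfl⟩
  refine ⟨1, ?_⟩
  funext x
  beta_reduce
  rw [map_one]

theorem MC.all (d : ℕ) (w : FreeGroup (ι ⊕ κ)) : MC.{u} d w := by
  have key : MC.{u} d w ∧ MC.{u} d w⁻¹ := by
    induction w using FreeGroup.induction_on with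
    | C1 => exact ⟨MC.one d, by rw [inv_one]; exact MC.one d⟩
    | of j => exact MC.gen d j
    | inv_of j h => exact ⟨h.2, by rw [inv_inv]; exact h.1⟩
    | mul w w' h h' => exact ⟨h.1.mul h'.1, by rw [mul_inv_rev]; exact h'.2.mul h.2⟩
  exact key.1

/-- The evaluations of crossed homomorphisms at the values of `w` are small. -/
def Good (d : ℕ) (s : Shape) (w : FreeGroup (ι ⊕ κ)) : Prop :=
  ∃ C : ℕ, ∀ (G : Type u) [Group G] [Finite G] (X : Type u) [Group X] [Finite X]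
    (p : ι → X →* G) (N : Type u) [Group N] [Finite N]
    [MulDistribMulAction G N] (n e : ℕ), Nil d N → Nat.card G ≤ 2 ^ n → Nat.card N ≤ 2 ^ e →
      Small ((n + e + 2) ^ C)
        (Set.range fun (a : κ → G) (y : X × Z1 (s.sub G) N) => y.2.val (wv p y.1 a w))

lemma Good.one (d : ℕ) (s : Shape) : Good.{u} d s (1 : FreeGroup (ι ⊕ κ)) := by
  refine ⟨1, ?_⟩
  intro G _ _ X _ _ p N _ _ _ n e hN hG hE
  refine Small.mono (Small.single hE (fun _ => 1) ?_) subset_rfl (by rw [pow_one]; omega)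
  rintro _ ⟨a, rfl⟩
  funext x
  beta_reduce
  rw [map_one, Z1.one]

lemma Good.mul {d : ℕ} {s : Shape} {w w' : FreeGroup (ι ⊕ κ)}
    (hw : w ∈ s.sub (FreeGroup (ι ⊕ κ))) (hw' : w' ∈ s.sub (FreeGroup (ι ⊕ κ)))
    (h : Good.{u} d s w) (h' : Good.{u} d s w') : Good.{u} d s (w * w') := by
  obtain ⟨C, h⟩ := h
  obtain ⟨C', h'⟩ := h'
  obtain ⟨M, hM⟩ := MC.all.{u} d w
  refine ⟨eS 1 (C + eP M C' (d + 2) + 1) (d + 2), ?_⟩
  intro G _ _ X _ _ p N _ _ _ n e hN hG hE
  have hm : 2 ≤ n + e + 2 := by omega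
  have h1 := (h G X p N n e hN hG hE).gen
  have h2 := h' G X p N n e hN hG hE
  have h3 := mc_pre (hM G X p N n e hN hG hE) (fun y : X × Z1 (s.sub G) N => y.1)
  have h4 := actPair hm hN (fun (a : κ → G) (y : X × Z1 (s.sub G) N) => wv p y.1 a w)
    (fun (a : κ → G) (y : X × Z1 (s.sub G) N) => y.2.val (wv p y.1 a w')) h3 h2
  refine Gen.toSmall hm hN hE (by rw [pow_one]; omega) (pow_bd hm) (h1.mul h4 ?_)
  rintro _ ⟨a, rfl⟩
  refine ⟨_, ⟨a, rfl⟩, _, ⟨a, rfl⟩, ?_⟩
  funext y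
  rw [Pi.mul_apply]
  beta_reduce
  rw [map_mul, y.2.mul (s.mem_of_mem (wv p y.1 a) hw) (s.mem_of_mem (wv p y.1 a) hw')]

lemma Good.inv {d : ℕ} {s : Shape} {w : FreeGroup (ι ⊕ κ)}
    (hw : w ∈ s.sub (FreeGroup (ι ⊕ κ))) (h : Good.{u} d s w) : Good.{u} d s w⁻¹ := by
  obtain ⟨C, h⟩ := h
  obtain ⟨M, hM⟩ := MC.all.{u} d w⁻¹
  refine ⟨eS 1 (eP M C (d + 2)) (d + 2), ?_⟩
  intro G _ _ X _ _ p N _ _ _ n e hN hG hE
  have hm : 2 ≤ n + e + 2 := by omega
  have h2 := h G X p N n e hN hG hE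
  have h3 := mc_pre (hM G X p N n e hN hG hE) (fun y : X × Z1 (s.sub G) N => y.1)
  have h4 := actPair hm hN (fun (a : κ → G) (y : X × Z1 (s.sub G) N) => wv p y.1 a w⁻¹)
    (fun (a : κ → G) (y : X × Z1 (s.sub G) N) => y.2.val (wv p y.1 a w)) h3 h2
  refine Small.inv (Gen.toSmall hm hN hE (by rw [pow_one]; omega) le_rfl h4) ?_
  rintro _ ⟨a, rfl⟩
  refine ⟨_, ⟨a, rfl⟩, ?_⟩
  funext y
  rw [Pi.inv_apply]
  beta_reduce
  rw [map_inv, y.2.inv (s.mem_of_mem (wv p y.1 a) hw)]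

/-- The bound for the order of the group of evaluations. -/
lemma bd_N1 {d n e : ℕ} : e * (n * e + 1) ^ (d + 2) ≤ (n + e + 2) ^ (2 * d + 5) := by
  have h1 : n * e + 1 ≤ (n + e + 2) ^ 2 := by
    have : n * e ≤ (n + e) * (n + e) := Nat.mul_le_mul (by omega) (by omega)
    calc n * e + 1 ≤ (n + e) * (n + e) + 1 := by omega
      _ ≤ (n + e + 2) ^ 2 := by
        rw [pow_two]
        nlinarith
  calc e * (n * e + 1) ^ (d + 2) ≤ (n + e + 2) * ((n + e + 2) ^ 2) ^ (d + 2) :=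
        Nat.mul_le_mul (by omega) (Nat.pow_le_pow_left h1 _)
    _ = (n + e + 2) ^ (2 * d + 5) := by
      rw [← pow_mul, ← pow_succ']
      congr 1

lemma Good.comm {d : ℕ} {l r : Shape} {w w' : FreeGroup (ι ⊕ κ)}
    (hw : w ∈ l.sub (FreeGroup (ι ⊕ κ))) (hw' : w' ∈ r.sub (FreeGroup (ι ⊕ κ)))
    (h : Good.{u} d l w) (h' : Good.{u} d r w') : Good.{u} d (.node l r) ⁅w, w'⁆ := by
  obtain ⟨C, h⟩ := h
  obtain ⟨C', h'⟩ := h'
  obtain ⟨M, hM⟩ := MC.all.{u} d w'⁻¹
  obtain ⟨M', hM'⟩ := MC.all.{u} d (w * w' * w⁻¹)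
  -- the exponents
  let T := 2 * d + 7
  let R₁ := eS 1 (eP M (T * C') (d + 2)) (d + 2)
  let R₂ := eS (2 * d + 5) (eP (T * C) (1 + R₁) (d + 2)) (d + 2)
  refine ⟨eS 1 (eP M' R₂ (d + 2)) (d + 2), ?_⟩
  intro G _ _ X _ _ p N _ _ _ n e hN hG hE
  have hm : 2 ≤ n + e + 2 := by omega
  set m := n + e + 2 with hm'
  let K := (Shape.node l r).sub G
  let K₁ := l.sub G
  let K₂ := r.sub G
  have hK : ∀ a ∈ K₁, ∀ b ∈ K₂, ⁅a, b⁆ ∈ K := fun a ha b hb =>
    Subgroup.commutator_mem_commutator ha hb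
  have hK' : ∀ b ∈ K₂, ∀ a ∈ K₁, ⁅b, a⁆ ∈ K := by
    intro b hb a ha
    rw [← commutatorElement_inv]
    exact K.inv_mem (hK a ha b hb)
  have hN₁ : Nil d (N1 K N) := hN.N1
  have hE₁ : Nat.card (N1 K N) ≤ 2 ^ (e * (n * e + 1) ^ (d + 2)) := card_N1_le hN hG hE
  have he₁ : e * (n * e + 1) ^ (d + 2) ≤ m ^ (2 * d + 5) := bd_N1
  have hmT : n + e * (n * e + 1) ^ (d + 2) + 2 ≤ m ^ T := by
    have h1 : m ^ 1 + m ^ (2 * d + 5) ≤ m ^ (1 + (2 * d + 5) + 1) := pow_bd hm
    have h2 : 1 + (2 * d + 5) + 1 = T := by omega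
    rw [h2, pow_one] at h1
    omega
  have e1 : ∀ c : ℕ, (n + e * (n * e + 1) ^ (d + 2) + 2) ^ c ≤ m ^ (T * c) := by
    intro c
    rw [pow_mul]
    exact Nat.pow_le_pow_left hmT c
  -- the two families from the induction hypotheses
  have h1 : Small (m ^ (T * C)) (Set.range fun (a : κ → G) (y : X × Z1 K₁ (N1 K N)) =>
      y.2.val (wv p y.1 a w)) :=
    Small.mono (h G X p (N1 K N) n _ hN₁ hG hE₁) subset_rfl (e1 C)
  have h2 : Small (m ^ (T * C')) (Set.range fun (a : κ → G) (y : X × Z1 K₂ (N1 K N)) =>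
      y.2.val (wv p y.1 a w')) :=
    Small.mono (h' G X p (N1 K N) n _ hN₁ hG hE₁) subset_rfl (e1 C')
  have hy₁ : ∀ (x : X) (a : κ → G), wv p x a w ∈ K₁ := fun x a => l.mem_of_mem (wv p x a) hw
  have hy₂ : ∀ (x : X) (a : κ → G), wv p x a w' ∈ K₂ := fun x a => r.mem_of_mem (wv p x a) hw'
  obtain ⟨g, hg, hgc⟩ := exists_gen K₁ (N := n) ((Subgroup.card_le_card_group K₁).trans hG)
  -- currying
  let cur : (X → N1 K N) →* (X × Z1 K N → N) :=
    { toFun := fun f y => (f y.1).app y.2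
      map_one' := rfl
      map_mul' := fun _ _ => rfl }
  have hcur : Function.Injective cur := by
    intro f f' hff
    funext x
    apply N1.ext
    intro φ
    exact congrFun hff (x, φ)
  -- the family of crossed homomorphisms, evaluated at the generators
  have h3 : ∀ i : Fin n, Small (m ^ R₁) (Set.range fun (a : κ → G) (x : X) =>
      (Bd K N (wv p x a w') K₁ (hK' _ (hy₂ x a))).val (g i)) := by
    intro i
    let bi := Bd K N (g i) K₂ (hK _ (hg i))
    have h4 : Small (m ^ (T * C')) (Set.range fun (a : κ → G) (y : X × Z1 K N) =>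
        (bi.val (wv p y.1 a w')).app y.2) := by
      let θ : (X × Z1 K₂ (N1 K N) → N1 K N) →* (X × Z1 K N → N) :=
        { toFun := fun f y => (f (y.1, bi)).app y.2
          map_one' := rfl
          map_mul' := fun _ _ => rfl }
      refine h2.map θ ?_
      rintro _ ⟨a, rfl⟩
      exact ⟨_, ⟨a, rfl⟩, rfl⟩
    have h5 := actPair hm hN (fun (a : κ → G) (y : X × Z1 K N) => wv p y.1 a w'⁻¹)
      (fun (a : κ → G) (y : X × Z1 K N) => (bi.val (wv p y.1 a w')).app y.2)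
      (mc_pre (hM G X p N n e hN hG hE) (fun y : X × Z1 K N => y.1)) h4
    have h6 : Small (m ^ R₁) _ :=
      Gen.toSmall hm hN hE (by rw [pow_one]; omega) le_rfl h5
    have h7 : Small (m ^ R₁) (Set.range fun (a : κ → G) (y : X × Z1 K N) =>
        g i • wv p y.1 a w'⁻¹ • (bi.val (wv p y.1 a w')).app y.2) := by
      let θ : (X × Z1 K N → N) →* (X × Z1 K N → N) :=
        { toFun := fun f y => g i • f y
          map_one' := by
            funext y
            exact smul_one _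
          map_mul' := fun _ _ => by
            funext y
            exact smul_mul' _ _ _ }
      refine h6.map θ ?_
      rintro _ ⟨a, rfl⟩
      exact ⟨_, ⟨a, rfl⟩, rfl⟩
    refine Small.comap cur hcur (Small.inv h7 ?_)
    rintro _ ⟨_, ⟨a, rfl⟩, rfl⟩
    refine ⟨_, ⟨a, rfl⟩, ?_⟩
    funext y
    change ((Bd K N (wv p y.1 a w') K₁ (hK' _ (hy₂ y.1 a))).val (g i)).app y.2 =
      (g i • wv p y.1 a w'⁻¹ • (bi.val (wv p y.1 a w')).app y.2)⁻¹
    rw [Bd_swap (hg i) (hy₂ y.1 a) (hK' _ (hy₂ y.1 a)) (hK _ (hg i)), map_inv]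
  -- all generators together
  have h8 : Small (m ^ (1 + R₁)) (Set.range fun (a : κ → G) (x : X) (i : Fin n) =>
      (Bd K N (wv p x a w') K₁ (hK' _ (hy₂ x a))).val (g i)) := by
    have h9 : Small (n * m ^ R₁) (Set.range fun (a : κ → G) (x : X) (i : Fin n) =>
        (Bd K N (wv p x a w') K₁ (hK' _ (hy₂ x a))).val (g i)) := by
      let θ : ∀ i : Fin n, (X → Fin n → N1 K N) →* (X → N1 K N) := fun i =>
        { toFun := fun f x => f x i
          map_one' := rfl
          map_mul' := fun _ _ => rfl }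
      refine Small.joint θ ?_ ?_
      · intro f hf
        funext x i
        exact congrFun (hf i) x
      · intro i
        refine Small.mono (h3 i) ?_ le_rfl
        rintro _ ⟨_, ⟨a, rfl⟩, rfl⟩
        exact ⟨a, rfl⟩
    refine Small.mono h9 subset_rfl ?_
    rw [pow_add, pow_one]
    exact Nat.mul_le_mul_right _ (by omega)
  -- the main pairing
  have h10 : Small (m ^ R₂) (Set.range fun (a : κ → G) (x : X) =>
      (Bd K N (wv p x a w') K₁ (hK' _ (hy₂ x a))).val (wv p x a w)) := by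
    have h11 := pairing (Y := X) (N := N1 K N) (Z := Z1 K₁ (N1 K N)) (Λ := Fin n → N1 K N)
      (D := d + 2) (fun δ i => δ.val (g i)) (P0 (pG G (N1 K N) n))
      (fun q hq => polyF_P0 hN₁ _ hq) h1 h8 (by
        rintro _ ⟨a, rfl⟩ x
        exact ext_val (N := N1 K N) g hgc (wv p x a w))
      (F := Set.range fun (a : κ → G) (x : X) =>
        (Bd K N (wv p x a w') K₁ (hK' _ (hy₂ x a))).val (wv p x a w)) (by
        rintro _ ⟨a, rfl⟩
        exact ⟨_, ⟨a, rfl⟩, fun x => Bd K N (wv p x a w') K₁ (hK' _ (hy₂ x a)), ⟨a, rfl⟩, rfl⟩)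
    exact Gen.toSmall hm hN₁ hE₁ he₁ (bdP hm le_rfl le_rfl) h11
  have h12 : Small (m ^ R₂) (Set.range fun (a : κ → G) (y : X × Z1 K N) =>
      ((Bd K N (wv p y.1 a w') K₁ (hK' _ (hy₂ y.1 a))).val (wv p y.1 a w)).app y.2) := by
    refine h10.map cur ?_
    rintro _ ⟨a, rfl⟩
    exact ⟨_, ⟨a, rfl⟩, rfl⟩
  have h13 := actPair hm hN (fun (a : κ → G) (y : X × Z1 K N) => wv p y.1 a (w * w' * w⁻¹))
    (fun (a : κ → G) (y : X × Z1 K N) =>
      ((Bd K N (wv p y.1 a w') K₁ (hK' _ (hy₂ y.1 a))).val (wv p y.1 a w)).app y.2)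
    (mc_pre (hM' G X p N n e hN hG hE) (fun y : X × Z1 K N => y.1)) h12
  refine Small.inv (Gen.toSmall hm hN hE (by rw [pow_one]; omega) le_rfl h13) ?_
  rintro _ ⟨a, rfl⟩
  refine ⟨_, ⟨a, rfl⟩, ?_⟩
  funext y
  rw [Pi.inv_apply]
  beta_reduce
  rw [map_commutatorElement, val_comm (hy₁ y.1 a) (hK' _ (hy₂ y.1 a)), map_mul, map_mul,
    map_inv]

theorem Good.all (d : ℕ) (s : Shape) : ∀ w ∈ s.sub (FreeGroup (ι ⊕ κ)), Good.{u} d s w := by
  induction s with
  | leaf =>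
    intro w _
    induction w using FreeGroup.induction_on with
    | C1 => exact Good.one _ _
    | of j =>
      rcases j with i | j
      · refine ⟨1, ?_⟩
        intro G _ _ X _ _ p N _ _ _ n e hN hG hE
        refine Small.mono (Small.single hE
          (fun y : X × Z1 (Shape.leaf.sub G) N => y.2.val (p i y.1)) ?_) subset_rfl
          (by rw [pow_one]; omega)
        rintro _ ⟨a, rfl⟩
        funext x
        beta_reduce
        rw [wv_inl]
      · refine ⟨2 * d + 5, ?_⟩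
        intro G _ _ X _ _ p N _ _ _ n e hN hG hE
        have h1 : Small (e * (n * e + 1) ^ (d + 2))
            ((N1s (Shape.leaf.sub G) N : Subgroup (Z1 (Shape.leaf.sub G) N → N)) :
              Set (Z1 (Shape.leaf.sub G) N → N)) :=
          ⟨N1s (Shape.leaf.sub G) N, subset_rfl, inferInstance, card_N1_le hN hG hE⟩
        refine Small.mono (h1.map (preH N fun y : X × Z1 (Shape.leaf.sub G) N => y.2) ?_)
          subset_rfl bd_N1
        rintro _ ⟨a, rfl⟩
        refine ⟨_, (evN (a j) : N1 (Shape.leaf.sub G) N).2, ?_⟩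
        funext y
        beta_reduce
        rw [wv_inr]
        rfl
    | inv_of j h => exact Good.inv (Subgroup.mem_top _) (h (Subgroup.mem_top _))
    | mul w w' h h' =>
      exact Good.mul (Subgroup.mem_top _) (Subgroup.mem_top _) (h (Subgroup.mem_top _))
        (h' (Subgroup.mem_top _))
  | node l r hl hr =>
    intro w hw
    have hcl : (Shape.node l r).sub (FreeGroup (ι ⊕ κ)) = Subgroup.closure
        {g | ∃ g₁ ∈ l.sub (FreeGroup (ι ⊕ κ)), ∃ g₂ ∈ r.sub (FreeGroup (ι ⊕ κ)),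
          ⁅g₁, g₂⁆ = g} := Subgroup.commutator_def _ _
    have key : ∀ w, w ∈ Subgroup.closure
        {g | ∃ g₁ ∈ l.sub (FreeGroup (ι ⊕ κ)), ∃ g₂ ∈ r.sub (FreeGroup (ι ⊕ κ)),
          ⁅g₁, g₂⁆ = g} → Good.{u} d (.node l r) w := by
      intro w hw
      induction hw using Subgroup.closure_induction with
      | mem w hw =>
        obtain ⟨g₁, h₁, g₂, h₂, rfl⟩ := hw
        exact Good.comm h₁ h₂ (hl g₁ h₁) (hr g₂ h₂)
      | one => exact Good.one _ _
      | mul w w' hw hw' h h' =>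
        exact Good.mul (by rw [hcl]; exact hw) (by rw [hcl]; exact hw') h h'
      | inv w hw h => exact Good.inv (by rw [hcl]; exact hw) h
    exact key w (by rwa [hcl] at hw)

end Word

end Pool.Agent.BBN
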