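import Pool.Agent.BBN.Reduce

/-!
Injectivity of the Magnus embedding, and the killing calculus for words.
-/

namespace Pool.Agent.BBN

open scoped commutatorElement
open Pool.Agent.BBG

universe u

set_option linter.unusedSectionVars false

section Mag
variable {J : Type} (A : Subgroup (FreeGroup J)) [A.Normal]

/-- Functions on the quotient with values in the abelianization of `A`. -/
def KMa : Type := (FreeGroup J ⧸ A) → Additive (Abelianization A)

instance : AddCommGroup (KMa A) :=
  inferInstanceAs (AddCommGroup ((FreeGroup J ⧸ A) → Additive (Abelianization A)))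

instance : DistribMulAction (FreeGroup J ⧸ A) (KMa A) where
  smul b φ := fun x => φ (x * b)
  one_smul φ := by
    funext x
    change φ (x * 1) = φ x
    rw [mul_one]
  mul_smul b b' φ := by
    funext x
    change φ (x * (b * b')) = φ (x * b * b')
    rw [mul_assoc]
  smul_zero _ := rfl
  smul_add _ _ _ := rfl

lemma dk_mem (g : FreeGroup J) (b : FreeGroup J ⧸ A) :
    Quotient.out b * g * (Quotient.out (b * (g : FreeGroup J ⧸ A)))⁻¹ ∈ A := by
  rw [← QuotientGroup.eq_one_iff]
  simp only [QuotientGroup.mk_mul, QuotientGroup.mk_inv, QuotientGroup.out_eq']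
  exact mul_inv_cancel _

/-- The derivation of Kaloujnine and Krasner. -/
noncomputable def dk (g : FreeGroup J) : KMa A := fun b =>
  Additive.ofMul (Abelianization.of ⟨_, dk_mem A g b⟩)

lemma dk_mul (g h : FreeGroup J) :
    dk A (g * h) = dk A g + (QuotientGroup.mk' A g) • dk A h := by
  funext b
  change Additive.ofMul (Abelianization.of (⟨_, dk_mem A (g * h) b⟩ : A)) =
    Additive.ofMul (Abelianization.of (⟨_, dk_mem A g b⟩ : A)) +
      Additive.ofMul (Abelianization.of (⟨_, dk_mem A h (b * (g : FreeGroup J ⧸ A))⟩ : A))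
  rw [← ofMul_mul, ← map_mul]
  congr 2
  apply Subtype.ext
  change Quotient.out b * (g * h) *
      (Quotient.out (b * ((g * h : FreeGroup J) : FreeGroup J ⧸ A)))⁻¹ =
    Quotient.out b * g * (Quotient.out (b * (g : FreeGroup J ⧸ A)))⁻¹ *
      (Quotient.out (b * (g : FreeGroup J ⧸ A)) * h *
        (Quotient.out (b * (g : FreeGroup J ⧸ A) * (h : FreeGroup J ⧸ A)))⁻¹)
  rw [QuotientGroup.mk_mul, mul_assoc b]
  group

lemma dk_inj {g : FreeGroup J} (hg : g ∈ A) (h : dk A g = 0) : g ∈ ⁅A, A⁆ := by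
  have h1 := congrFun h (1 : FreeGroup J ⧸ A)
  have h2 : Abelianization.of (⟨_, dk_mem A g 1⟩ : A) = 1 := h1
  have h3 : (⟨_, dk_mem A g 1⟩ : A) ∈ commutator A := by
    rw [← Abelianization.ker_of A, MonoidHom.mem_ker]
    exact h2
  have h4 : (Quotient.out (1 : FreeGroup J ⧸ A) * g *
      (Quotient.out ((1 : FreeGroup J ⧸ A) * (g : FreeGroup J ⧸ A)))⁻¹) ∈ ⁅A, A⁆ := by
    have h5 := Subgroup.mem_map_of_mem A.subtype h3
    rw [commutator_def, Subgroup.map_commutator, ← MonoidHom.range_eq_map,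
      Subgroup.range_subtype] at h5
    exact h5
  have h6 : ((g : FreeGroup J) : FreeGroup J ⧸ A) = 1 := (QuotientGroup.eq_one_iff g).mpr hg
  rw [h6, mul_one] at h4
  have hn : (⁅A, A⁆ : Subgroup (FreeGroup J)).Normal := Subgroup.commutator_normal A A
  have h7 := hn.conj_mem _ h4 (Quotient.out (1 : FreeGroup J ⧸ A))⁻¹
  have e : (Quotient.out (1 : FreeGroup J ⧸ A))⁻¹ *
      (Quotient.out (1 : FreeGroup J ⧸ A) * g * (Quotient.out (1 : FreeGroup J ⧸ A))⁻¹) *
      ((Quotient.out (1 : FreeGroup J ⧸ A))⁻¹)⁻¹ = g := by group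
  rwa [e] at h7

/-- The Fox derivation into the free module. -/
noncomputable def fox (w : FreeGroup J) : Fx (FreeGroup J ⧸ A) J :=
  dv (QuotientGroup.mk' A) (fun j => be 1 j 1) w

lemma fox_mul (w w' : FreeGroup J) :
    fox A (w * w') = fox A w + QuotientGroup.mk' A w • fox A w' := dv_mul _ _ _ _

lemma fox_one : fox A (1 : FreeGroup J) = 0 := dv_one _ _

lemma fox_inv (w : FreeGroup J) :
    fox A w⁻¹ = - ((QuotientGroup.mk' A w)⁻¹ • fox A w) := dv_inv _ _ _

lemma fox_of (j : J) : fox A (FreeGroup.of j) = be 1 j 1 := dv_of _ _ _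

/-- Injectivity of the Magnus embedding. -/
theorem magnus {w : FreeGroup J} (hw : w ∈ A) (h : fox A w = 0) : w ∈ ⁅A, A⁆ := by
  apply dk_inj A hw
  let L : Fx (FreeGroup J ⧸ A) J →+ KMa A :=
    lin (fun q j => q • dk A (FreeGroup.of j))
  have hL : ∀ (q : FreeGroup J ⧸ A) (f : Fx (FreeGroup J ⧸ A) J), L (q • f) = q • L f := by
    intro q f
    refine Fx.induction (p := fun f => L (q • f) = q • L f) f ?_ ?_ ?_
    · rw [smul_zero, map_zero, smul_zero]
    · intro f g hf hg
      rw [smul_add, map_add, map_add, smul_add, hf, hg]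
    · intro q' j m
      rw [smul_be, lin_be, lin_be, mul_smul, smul_comm q m]
  have h1 : ∀ w, L (fox A w) = dk A w := by
    intro w
    rw [dv_unique (QuotientGroup.mk' A) (fun j => dk A (FreeGroup.of j)) (dk A) (dk_mul A)
      (fun _ => rfl) w]
    refine dv_unique (QuotientGroup.mk' A) (fun j => dk A (FreeGroup.of j))
      (fun w => L (fox A w)) ?_ ?_ w
    · intro w w'
      rw [fox_mul, map_add, hL]
    · intro j
      rw [fox_of, lin_be, one_smul, one_smul]
  rw [← h1, h, map_zero]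

end Mag

section Ker
variable {ι : Type} [Finite ι] (c : ℕ)

/-- The ambient free group. -/
abbrev Ph (ι : Type) : Type := FreeGroup (ι ⊕ ℕ)

/-- A term of the lower central series of the free group. -/
abbrev Aa (ι : Type) (c : ℕ) : Subgroup (Ph ι) := (lcsShape c).sub (Ph ι)

/-- The free nilpotent group. -/
abbrev Qn (ι : Type) (c : ℕ) : Type := Ph ι ⧸ Aa ι c

/-- The induced endomorphism of the quotient. -/
def sq (s : ι → ℕ) : Qn ι c →* Qn ι c :=
  QuotientGroup.map (Aa ι c) (Aa ι c) (sg s) (by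
    intro w hw
    exact (lcsShape c).mem_of_mem (sg s) hw)

lemma sq_mk (s : ι → ℕ) (w : Ph ι) :
    sq c s (QuotientGroup.mk' (Aa ι c) w) = QuotientGroup.mk' (Aa ι c) (sg s w) := rfl

/-- The induced additive map of the free module. -/
noncomputable def ta (s : ι → ℕ) : Fx (Qn ι c) (ι ⊕ ℕ) →+ Fx (Qn ι c) (ι ⊕ ℕ) :=
  lin (fun q j => sq c s q • fox (Aa ι c) (sg s (FreeGroup.of j)))

lemma ta_smul (s : ι → ℕ) (q : Qn ι c) (f : Fx (Qn ι c) (ι ⊕ ℕ)) :
    ta c s (q • f) = sq c s q • ta c s f := by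
  refine Fx.induction (p := fun f => ta c s (q • f) = sq c s q • ta c s f) f ?_ ?_ ?_
  · rw [smul_zero, map_zero, smul_zero]
  · intro f g hf hg
    rw [smul_add, map_add, map_add, smul_add, hf, hg]
  · intro q' j m
    rw [smul_be, ta, lin_be, lin_be, map_mul, mul_smul, smul_comm (sq c s q) m]

lemma ta_fox (s : ι → ℕ) (w : Ph ι) :
    ta c s (fox (Aa ι c) w) = fox (Aa ι c) (sg s w) := by
  have key : ∀ w, ta c s (fox (Aa ι c) w) = dv
      ((sq c s).comp (QuotientGroup.mk' (Aa ι c)))
      (fun j => fox (Aa ι c) (sg s (FreeGroup.of j))) w := by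
    intro w
    refine dv_unique ((sq c s).comp (QuotientGroup.mk' (Aa ι c)))
      (fun j => fox (Aa ι c) (sg s (FreeGroup.of j)))
      (fun w => ta c s (fox (Aa ι c) w)) ?_ ?_ w
    · intro w w'
      rw [fox_mul, map_add, ta_smul]
      rfl
    · intro j
      rw [fox_of, ta, lin_be, map_one, one_smul, one_smul]
  have key' : ∀ w, fox (Aa ι c) (sg s w) = dv
      ((sq c s).comp (QuotientGroup.mk' (Aa ι c)))
      (fun j => fox (Aa ι c) (sg s (FreeGroup.of j))) w := by
    intro w
    refine dv_unique ((sq c s).comp (QuotientGroup.mk' (Aa ι c)))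
      (fun j => fox (Aa ι c) (sg s (FreeGroup.of j)))
      (fun w => fox (Aa ι c) (sg s w)) ?_ ?_ w
    · intro w w'
      rw [map_mul, fox_mul]
      rfl
    · intro j
      rfl
  rw [key, key']

/-- The chain in the free nilpotent group. -/
lemma chain_Q : Chain (fun s : ι → ℕ => sq c s) (c + 2) (⊤ : Subgroup (Qn ι c)) := by
  let mk := QuotientGroup.mk' (Aa ι c)
  refine chain_top c ?_ (Subgroup.closure (Set.range fun j : ℕ => mk (FreeGroup.of (Sum.inr j))))
    ?_ (Set.range fun i : ι => mk (FreeGroup.of (Sum.inl i))) ?_ ?_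
  · have h1 : ((⊤ : Subgroup (Ph ι)).lowerCentralSeries c).map mk = ⊥ := by
      rw [← lcsShape_sub, Subgroup.map_eq_bot_iff]
      exact (QuotientGroup.ker_mk' (Aa ι c)).ge
    rw [Subgroup.map_lowerCentralSeries] at h1
    rwa [← MonoidHom.range_eq_map, MonoidHom.range_eq_top_of_surjective mk
      (QuotientGroup.mk'_surjective _)] at h1
  · intro x hx s
    induction hx using Subgroup.closure_induction with
    | mem x hx =>
      obtain ⟨j, rfl⟩ := hx
      change sq c s (mk (FreeGroup.of (Sum.inr j))) = mk (FreeGroup.of (Sum.inr j))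
      rw [sq_mk, sg_inr]
    | one => exact map_one _
    | mul x y _ _ h1 h2 => rw [map_mul, h1, h2]
    | inv x _ h1 => rw [map_inv, h1]
  · rintro _ ⟨i, rfl⟩ s
    change (mk (FreeGroup.of (Sum.inl i)))⁻¹ * sq c s (mk (FreeGroup.of (Sum.inl i))) ∈ _
    rw [sq_mk, sg_inl, map_mul, inv_mul_cancel_left]
    exact Subgroup.subset_closure ⟨s i, rfl⟩
  · rw [eq_top_iff]
    have h1 : (⊤ : Subgroup (Ph ι)) ≤ (Subgroup.closure
        (((Subgroup.closure (Set.range fun j : ℕ => mk (FreeGroup.of (Sum.inr j))) :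
          Subgroup (Qn ι c)) : Set (Qn ι c)) ∪
        Set.range fun i : ι => mk (FreeGroup.of (Sum.inl i)))).comap mk := by
      rw [← FreeGroup.closure_range_of, Subgroup.closure_le]
      rintro _ ⟨j, rfl⟩
      rcases j with i | j
      · exact Subgroup.subset_closure (Or.inr ⟨i, rfl⟩)
      · exact Subgroup.subset_closure (Or.inl (Subgroup.subset_closure ⟨j, rfl⟩))
    intro q _
    obtain ⟨w, rfl⟩ := QuotientGroup.mk'_surjective (Aa ι c) q
    exact h1 (Subgroup.mem_top w)

end Ker

end Pool.Agent.BBN
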