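import Pool.Agent.BBN.Magnus

/-!
Every word with parameters is a law or is violated often, in every finite group `G` such that
the derived subgroup of `γ_c(G)` is nilpotent of bounded class.
-/

namespace Pool.Agent.BBN

open scoped commutatorElement
open Pool.Agent.BBG

universe u

set_option linter.unusedSectionVars false

variable {ι : Type} [Finite ι] (c : ℕ)

/-- Atoms of the first stage: parameters. -/
def At1 (ι : Type) (c : ℕ) : Set (Fx (Qn ι c) (ι ⊕ ℕ)) :=
  {f | ∃ j : ℕ, f = be 1 (Sum.inr j) 1 ∨ f = - be 1 (Sum.inr j) 1}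

/-- No rest. -/
def Re1 (ι : Type) (c : ℕ) : ℕ → Set (Fx (Qn ι c) (ι ⊕ ℕ)) := fun _ => {0}

lemma frameA : Frame (fun s : ι → ℕ => sq c s) (fun s : ι → ℕ => ta c s) (At1 ι c)
    (Re1 ι c) where
  compat := fun s x f => ta_smul c s x f
  mono := fun _ => subset_rfl
  zero := rfl
  add := by
    rintro m n f g hf hg
    rw [Re1, Set.mem_singleton_iff] at *
    rw [hf, hg, add_zero]
  neg := by
    rintro m f hf
    rw [Re1, Set.mem_singleton_iff] at *
    rw [hf, neg_zero]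
  smul := by
    rintro m f x hf
    rw [Re1, Set.mem_singleton_iff] at *
    rw [hf, smul_zero]
  shift := by
    rintro m f s hf
    rw [Re1, Set.mem_singleton_iff] at *
    rw [hf, map_zero]
  atomNeg := by
    rintro a ⟨j, rfl | rfl⟩
    · exact ⟨j, Or.inr rfl⟩
    · exact ⟨j, Or.inl (neg_neg _)⟩
  atom := by
    have key : ∀ (s : ι → ℕ) (j : ℕ), ta c s (be 1 (Sum.inr j) 1) = be 1 (Sum.inr j) 1 := by
      intro s j
      rw [← fox_of (Aa ι c) (Sum.inr j), ta_fox, sg_inr]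
    rintro a s ⟨j, rfl | rfl⟩
    · rw [Re1, Set.mem_singleton_iff, key, sub_self]
    · rw [Re1, Set.mem_singleton_iff, map_neg, key, sub_self]

/-- Atoms of the second stage: variables. -/
def At2 (ι : Type) (c : ℕ) : Set (Fx (Qn ι c) (ι ⊕ ℕ)) :=
  {f | ∃ i : ι, f = be 1 (Sum.inl i) 1 ∨ f = - be 1 (Sum.inl i) 1}

/-- The rests of the second stage. -/
def Re2 (ι : Type) (c : ℕ) (q : ℕ) : Set (Fx (Qn ι c) (ι ⊕ ℕ)) :=
  Fn (⊤ : Subgroup (Qn ι c)) (At1 ι c) (Re1 ι c) q

lemma frameB : Frame (fun s : ι → ℕ => sq c s) (fun s : ι → ℕ => ta c s) (At2 ι c)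
    (Re2 ι c) := by
  have fr := frameA (ι := ι) c
  refine
  { compat := fun s x f => ta_smul c s x f
    mono := fun h => Fn.mono fr le_rfl h
    zero := Comb.nil 0 rfl
    add := fun hf hg => Fn.add fr hf hg
    neg := fun hf => Fn.neg fr hf
    smul := fun x hf => Fn.smul fr (Subgroup.mem_top x) hf
    shift := ?_
    atomNeg := ?_
    atom := ?_ }
  · intro m f s hf
    have key : ∀ n : ℕ, ∀ f,
        Comb ((⊤ : Subgroup (Qn ι c)) : Set (Qn ι c)) (At1 ι c) (Re1 ι c m) n f →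
        Comb ((⊤ : Subgroup (Qn ι c)) : Set (Qn ι c)) (At1 ι c) (Re1 ι c m) n (ta c s f) := by
      intro n f hf
      induction hf with
      | nil n hr => exact Comb.nil n (fr.shift s hr)
      | @cons n x y g hx hy _ ih =>
        rw [map_add, ta_smul]
        refine Comb.cons (Subgroup.mem_top _) ?_ ih
        have h1 := fr.atom s hy
        have h2 : ta c s y = y := sub_eq_zero.mp h1
        rw [h2]
        exact hy
    exact key m f hf
  · rintro a ⟨j, rfl | rfl⟩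
    · exact ⟨j, Or.inr rfl⟩
    · exact ⟨j, Or.inl (neg_neg _)⟩
  · have hterm : ∀ (s : ι → ℕ) (i : ι),
        ta c s (be 1 (Sum.inl i) 1) - be 1 (Sum.inl i) 1 ∈ Re2 ι c 1 := by
      intro s i
      have e : ta c s (be 1 (Sum.inl i) 1) - be 1 (Sum.inl i) 1 =
          QuotientGroup.mk' (Aa ι c) (FreeGroup.of (Sum.inl i)) •
            be 1 (Sum.inr (s i)) 1 + 0 := by
        rw [← fox_of (Aa ι c) (Sum.inl i), ta_fox, sg_inl, fox_mul, fox_of, fox_of, add_zero,
          add_sub_cancel_left]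
      rw [e]
      exact Comb.cons (Subgroup.mem_top _) ⟨s i, Or.inl rfl⟩ (Comb.nil 0 rfl)
    rintro a s ⟨i, rfl | rfl⟩
    · exact hterm s i
    · have h1 := Fn.neg fr (hterm s i)
      change ta c s (- be 1 (Sum.inl i) 1) - - be 1 (Sum.inl i) 1 ∈ Re2 ι c 1
      have e : ta c s (- be 1 (Sum.inl i) 1) - - be 1 (Sum.inl i) 1 =
          - (ta c s (be 1 (Sum.inl i) 1) - be 1 (Sum.inl i) 1) := by
        rw [map_neg]; abel
      rw [e]
      exact h1

lemma fox_mem (w : Ph ι) :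
    ∃ q, fox (Aa ι c) w ∈ Fn (⊤ : Subgroup (Qn ι c)) (At2 ι c) (Re2 ι c) q := by
  have frA := frameA (ι := ι) c
  have frB := frameB (ι := ι) c
  have hof : ∀ j : ι ⊕ ℕ,
      fox (Aa ι c) (FreeGroup.of j) ∈ Fn (⊤ : Subgroup (Qn ι c)) (At2 ι c) (Re2 ι c) 1 := by
    intro j
    rw [fox_of]
    rcases j with i | j
    · have h1 : Comb ((⊤ : Subgroup (Qn ι c)) : Set (Qn ι c)) (At2 ι c) (Re2 ι c 1) (0 + 1)
          ((1 : Qn ι c) • (be 1 (Sum.inl i) 1 : Fx (Qn ι c) (ι ⊕ ℕ)) + 0) :=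
        Comb.cons (Subgroup.mem_top _) ⟨i, Or.inl rfl⟩
          (Comb.nil 0 (frB.mono (Nat.zero_le 1) frB.zero))
      rwa [one_smul, add_zero] at h1
    · apply Fn.rest
      have h1 : Comb ((⊤ : Subgroup (Qn ι c)) : Set (Qn ι c)) (At1 ι c) (Re1 ι c 1) (0 + 1)
          ((1 : Qn ι c) • (be 1 (Sum.inr j) 1 : Fx (Qn ι c) (ι ⊕ ℕ)) + 0) :=
        Comb.cons (Subgroup.mem_top _) ⟨j, Or.inl rfl⟩ (Comb.nil 0 rfl)
      rw [one_smul, add_zero] at h1
      exact h1
  induction w using FreeGroup.induction_on with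
  | C1 => exact ⟨0, by rw [fox_one]; exact Comb.nil 0 frB.zero⟩
  | of j => exact ⟨1, hof j⟩
  | inv_of j _ =>
    refine ⟨1, ?_⟩
    rw [fox_inv]
    exact Fn.neg frB (Fn.smul frB (Subgroup.mem_top _) (hof j))
  | mul w w' h h' =>
    obtain ⟨q, hq⟩ := h
    obtain ⟨q', hq'⟩ := h'
    refine ⟨q + q', ?_⟩
    rw [fox_mul]
    exact Fn.add frB hq (Fn.smul frB (Subgroup.mem_top _) hq')

lemma mk_eq_one {w : Ph ι} (hw : w ∈ Aa ι c) : QuotientGroup.mk' (Aa ι c) w = 1 :=
  (QuotientGroup.eq_one_iff w).mpr hw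

/-- Evaluation of killing strategies. -/
lemma PV.kill (d : ℕ) {Z : Set (Fx (Qn ι c) (ι ⊕ ℕ))}
    (hZ : ∀ w ∈ Aa ι c, fox (Aa ι c) w ∈ Z → PV.{u} d c w) :
    ∀ N, ∀ w ∈ Aa ι c,
      Kill (fun s : ι → ℕ => ta c s) (⊤ : Subgroup (Qn ι c)) Z N (fox (Aa ι c) w) →
        PV.{u} d c w := by
  intro N
  induction N with
  | zero => exact hZ
  | succ N ih =>
    intro w hw hk
    obtain ⟨x, -, hk⟩ := hk
    obtain ⟨h, rfl⟩ := QuotientGroup.mk'_surjective (Aa ι c) x
    apply PV.undo w h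
    intro s
    set v := h * w * h⁻¹ with hv
    have hvA : v ∈ Aa ι c := (inferInstance : (Aa ι c).Normal).conj_mem w hw h
    have hsv : sg s v ∈ Aa ι c := (lcsShape c).mem_of_mem (sg s) hvA
    have hDv : fox (Aa ι c) v = QuotientGroup.mk' (Aa ι c) h • fox (Aa ι c) w := by
      rw [hv, fox_mul, fox_mul, map_mul, mk_eq_one c hw, mul_one, fox_inv, smul_neg,
        smul_smul, mul_inv_cancel, one_smul]
      abel
    apply ih
    · exact (Aa ι c).mul_mem ((Aa ι c).inv_mem hvA) hsv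
    · have e : fox (Aa ι c) (v⁻¹ * sg s v) =
          ta c s (QuotientGroup.mk' (Aa ι c) h • fox (Aa ι c) w) -
            QuotientGroup.mk' (Aa ι c) h • fox (Aa ι c) w := by
        rw [fox_mul, fox_inv, map_inv, mk_eq_one c hvA, inv_one, one_smul, one_smul, ← hDv,
          ta_fox]
        abel
      rw [e]
      exact hk s

theorem PV.mem (d : ℕ) {w : Ph ι} (hw : w ∈ Aa ι c) : PV.{u} d c w := by
  have hchain := chain_Q (ι := ι) c
  have h0 : ∀ w ∈ Aa ι c, fox (Aa ι c) w ∈ ({0} : Set (Fx (Qn ι c) (ι ⊕ ℕ))) → PV.{u} d c w := by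
    intro w hw h
    have h1 : w ∈ ⁅Aa ι c, Aa ι c⁆ := magnus (Aa ι c) hw h
    exact dens_U.{u} d (mShape c) w h1
  have h1 : ∀ q', ∀ w ∈ Aa ι c, fox (Aa ι c) w ∈ Re2 ι c q' → PV.{u} d c w := by
    intro q' w hw h
    exact PV.kill c d h0 _ w hw (kill_chain (frameA c) hchain q' _ h)
  obtain ⟨q, hq⟩ := fox_mem c w
  exact PV.kill c d (h1 _) _ w hw (kill_chain (frameB c) hchain q _ hq)

/-- The density theorem for words with parameters. -/
theorem PV.all (d : ℕ) (w : Ph ι) : PV.{u} d c w := by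
  have hchain := chain_Q (ι := ι) c
  have key : ∀ (i : ℕ) (K : Subgroup (Qn ι c)), Chain (fun s : ι → ℕ => sq c s) i K →
      ∀ w : Ph ι, QuotientGroup.mk' (Aa ι c) w ∈ K → PV.{u} d c w := by
    intro i K hK
    induction hK with
    | bot =>
      intro w hw
      exact PV.mem c d ((QuotientGroup.eq_one_iff w).mp (Subgroup.mem_bot.mp hw))
    | step h1 h2 h3 ih =>
      intro w hw
      apply PV.undo w 1
      intro s
      apply ih
      rw [one_mul, inv_one, mul_one, map_mul, map_inv]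
      exact h3 _ hw s
  exact key _ _ hchain w (Subgroup.mem_top _)

end Pool.Agent.BBN
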