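import Pool.Agent.BBN.Dens
import Pool.Agent.BBG.Kill

/-!
Formal reduction: by twisted differences every word is brought into `[γ_c F, γ_c F]`.
-/

namespace Pool.Agent.BBN

open scoped commutatorElement
open Pool.Agent.BBG

universe u

set_option linter.unusedSectionVars false

/-- The shape of the lower central series. -/
def lcsShape : ℕ → Shape
  | 0 => .leaf
  | c + 1 => .node (lcsShape c) .leaf

lemma lcsShape_sub (c : ℕ) (G : Type*) [Group G] :
    (lcsShape c).sub G = (⊤ : Subgroup G).lowerCentralSeries c := by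
  induction c with
  | zero => rfl
  | succ c ih =>
    rw [Subgroup.lowerCentralSeries_succ, ← ih]
    rfl

/-- The shape of the derived subgroup of a term of the lower central series. -/
def mShape (c : ℕ) : Shape := .node (lcsShape c) (lcsShape c)

section PV
variable {ι : Type} [Finite ι]

/-- The substitution `xᵢ ↦ xᵢ y_{s i}`. -/
def sg (s : ι → ℕ) : FreeGroup (ι ⊕ ℕ) →* FreeGroup (ι ⊕ ℕ) :=
  FreeGroup.lift (Sum.elim
    (fun i => FreeGroup.of (Sum.inl i) * FreeGroup.of (Sum.inr (s i)))
    (fun j => FreeGroup.of (Sum.inr j)))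

@[simp] lemma sg_inl (s : ι → ℕ) (i : ι) : sg s (FreeGroup.of (Sum.inl i)) =
    FreeGroup.of (Sum.inl i) * FreeGroup.of (Sum.inr (s i)) := by simp [sg]

@[simp] lemma sg_inr (s : ι → ℕ) (j : ℕ) : sg s (FreeGroup.of (Sum.inr j)) =
    FreeGroup.of (Sum.inr j) := by simp [sg]

lemma wv_sg {G X : Type*} [Group G] [Group X] (p : ι → X →* G) (x z : X) (a : ℕ → G)
    (s : ι → ℕ) (hs : ∀ i, a (s i) = p i z) (w : FreeGroup (ι ⊕ ℕ)) :
    wv p x a (sg s w) = wv p (x * z) a w := by
  have : (wv p x a).comp (sg s) = wv p (x * z) a := by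
    apply FreeGroup.ext_hom
    intro j
    rcases j with i | j
    · simp [hs]
    · simp
  exact DFunLike.congr_fun this w

lemma exists_fresh (w : FreeGroup (ι ⊕ ℕ)) :
    ∃ N : ℕ, ∀ (G X : Type u) [Group G] [Group X] (p : ι → X →* G) (x : X) (a a' : ℕ → G),
      (∀ m < N, a m = a' m) → wv p x a w = wv p x a' w := by
  induction w using FreeGroup.induction_on with
  | C1 => exact ⟨0, fun G X _ _ p x a a' _ => by rw [map_one, map_one]⟩
  | of j =>
    rcases j with i | j
    · exact ⟨0, fun G X _ _ p x a a' _ => by rw [wv_inl, wv_inl]⟩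
    · exact ⟨j + 1, fun G X _ _ p x a a' h => by
        rw [wv_inr, wv_inr, h j (Nat.lt_succ_self j)]⟩
  | inv_of j h =>
    obtain ⟨N, hN⟩ := h
    exact ⟨N, fun G X _ _ p x a a' h => by rw [map_inv, map_inv, hN G X p x a a' h]⟩
  | mul w w' h h' =>
    obtain ⟨N, hN⟩ := h
    obtain ⟨N', hN'⟩ := h'
    refine ⟨N + N', fun G X _ _ p x a a' h => ?_⟩
    rw [map_mul, map_mul, hN G X p x a a' (fun m hm => h m (by omega)),
      hN' G X p x a a' (fun m hm => h m (by omega))]

/-- For every choice of parameters, `w` vanishes identically or is violated often, in all finite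
groups `G` such that the derived subgroup of `γ_c(G)` is faithfully represented by the action on
a nilpotent group `N` of class at most `d` and a crossed homomorphism to `N`. -/
def PV (d c : ℕ) (w : FreeGroup (ι ⊕ ℕ)) : Prop :=
  ∃ C : ℕ, ∀ (G : Type u) [Group G] [Finite G] (X : Type u) [Group X] [Finite X]
    (p : ι → X →* G) (N : Type u) [Group N] [Finite N] [MulDistribMulAction G N]
    (δ : Z1 ((mShape c).sub G) N) (n e : ℕ), Nil d N →
    (∀ k ∈ (mShape c).sub G, (∀ v : N, k • v = v) → δ.val k = 1 → k = 1) →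
    Nat.card G ≤ 2 ^ n → Nat.card N ≤ 2 ^ e → ∀ a : ℕ → G,
      (∀ x : X, wv p x a w = 1) ∨
        Nat.card X ≤ (n + e + 2) ^ C * Nat.card {x : X // wv p x a w ≠ 1}

/-- Undoing a difference. -/
theorem PV.undo {d c : ℕ} (w h : FreeGroup (ι ⊕ ℕ))
    (H : ∀ s : ι → ℕ, PV.{u} d c ((h * w * h⁻¹)⁻¹ * sg s (h * w * h⁻¹))) : PV.{u} d c w := by
  set v := h * w * h⁻¹ with hv
  obtain ⟨N, hN⟩ := exists_fresh.{u} v
  obtain ⟨m, ⟨e⟩⟩ := Finite.exists_equiv_fin ι
  let s : ι → ℕ := fun i => N + (e i : ℕ)
  have hs : Function.Injective s := by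
    intro i j hij
    have h1 : N + (e i : ℕ) = N + (e j : ℕ) := hij
    have : (e i : ℕ) = e j := by omega
    exact e.injective (Fin.ext this)
  obtain ⟨C, hC⟩ := H s
  refine ⟨C + 1, ?_⟩
  intro G _ _ X _ _ p E _ _ _ δ n e' hnil hinj hG hE a
  have hvw : ∀ x : X, wv p x a v = 1 ↔ wv p x a w = 1 := by
    intro x
    rw [hv, map_mul, map_mul, map_inv]
    constructor
    · intro h1
      have h2 : wv p x a h * wv p x a w = wv p x a h := by
        rwa [mul_inv_eq_one] at h1
      exact mul_eq_left.mp h2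
    · intro h1
      rw [h1, mul_one, mul_inv_cancel]
  by_cases hlaw : ∀ x : X, wv p x a w = 1
  · exact Or.inl hlaw
  right
  push Not at hlaw
  obtain ⟨x₀, hx₀⟩ := hlaw
  let az : X → ℕ → G := fun z => Function.extend s (fun i => p i z) a
  have haz : ∀ (z : X) (i : ι), az z (s i) = p i z := fun z i =>
    hs.extend_apply (fun i => p i z) a i
  have haz' : ∀ (z : X) (k : ℕ), k < N → a k = az z k := by
    intro z k hk
    refine (Function.extend_apply' (fun i => p i z) a k ?_).symm
    rintro ⟨i, hi⟩
    have : N + (e i : ℕ) = k := hi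
    omega
  have hval : ∀ z x : X, wv p x (az z) (v⁻¹ * sg s v) =
      (wv p x a v)⁻¹ * wv p (x * z) a v := by
    intro z x
    rw [map_mul, map_inv, wv_sg p x z (az z) s (haz z), ← hN G X p x a (az z) (haz' z),
      ← hN G X p (x * z) a (az z) (haz' z)]
  by_cases hz : ∀ z x : X, wv p x (az z) (v⁻¹ * sg s v) = 1
  · -- `v` is constant
    have hall : ∀ x : X, wv p x a w ≠ 1 := by
      intro x hx
      apply hx₀
      have h1 := hz (x₀⁻¹ * x) x₀
      rw [hval, mul_inv_cancel_left, inv_mul_eq_one] at h1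
      rw [← hvw, h1, hvw]
      exact hx
    have h2 : Nat.card X ≤ Nat.card {x : X // wv p x a w ≠ 1} :=
      Nat.card_le_card_of_injective (fun x => ⟨x, hall x⟩) (fun x y hxy => by
        have := congrArg Subtype.val hxy
        exact this)
    refine h2.trans (Nat.le_mul_of_pos_left _ ?_)
    positivity
  · push Not at hz
    obtain ⟨z, x₁, hx₁⟩ := hz
    rcases hC G X p E δ n e' hnil hinj hG hE (az z) with h | h
    · exact absurd (h x₁) hx₁
    have h3 : Nat.card {x : X // wv p x (az z) (v⁻¹ * sg s v) ≠ 1} ≤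
        2 * Nat.card {x : X // wv p x a w ≠ 1} := by
      have key : ∀ x : X, wv p x (az z) (v⁻¹ * sg s v) ≠ 1 →
          wv p x a w ≠ 1 ∨ wv p (x * z) a w ≠ 1 := by
        intro x hx
        by_contra hcon
        push Not at hcon
        apply hx
        rw [hval, (hvw x).mpr hcon.1, (hvw (x * z)).mpr hcon.2, inv_one, one_mul]
      classical
      let f : {x : X // wv p x (az z) (v⁻¹ * sg s v) ≠ 1} →
          {x : X // wv p x a w ≠ 1} ⊕ {x : X // wv p x a w ≠ 1} := fun x =>
        if hx : wv p x.1 a w ≠ 1 then Sum.inl ⟨x.1, hx⟩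
        else Sum.inr ⟨x.1 * z, (key x.1 x.2).resolve_left hx⟩
      have hf : Function.Injective f := by
        intro x y hxy
        simp only [f] at hxy
        apply Subtype.ext
        split_ifs at hxy with h1 h2 h2
        · have h5 := Sum.inl.inj hxy
          have h6 := congrArg Subtype.val h5
          exact h6
        · have h5 := Sum.inr.inj hxy
          have h6 := congrArg Subtype.val h5
          exact mul_right_cancel h6
      have h4 := Nat.card_le_card_of_injective f hf
      rw [Nat.card_sum] at h4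
      omega
    calc Nat.card X ≤ (n + e' + 2) ^ C *
          Nat.card {x : X // wv p x (az z) (v⁻¹ * sg s v) ≠ 1} := h
      _ ≤ (n + e' + 2) ^ C * (2 * Nat.card {x : X // wv p x a w ≠ 1}) :=
          Nat.mul_le_mul_left _ h3
      _ ≤ (n + e' + 2) ^ C * ((n + e' + 2) * Nat.card {x : X // wv p x a w ≠ 1}) :=
          Nat.mul_le_mul_left _ (Nat.mul_le_mul_right _ (by omega))
      _ = _ := by ring

end PV

section Fox
variable {J Q : Type*} [Group Q]

/-- The free module with basis `J` over the group ring of `Q`. -/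
def Fx (Q J : Type*) : Type _ := (Q × J) →₀ ℤ

noncomputable instance : AddCommGroup (Fx Q J) := inferInstanceAs (AddCommGroup ((Q × J) →₀ ℤ))

/-- Basis vectors. -/
noncomputable def be (q : Q) (j : J) (m : ℤ) : Fx Q J := Finsupp.single (q, j) m

noncomputable instance : SMul Q (Fx Q J) where
  smul q f := Finsupp.mapDomain (fun p : Q × J => (q * p.1, p.2)) f

lemma smul_be (q q' : Q) (j : J) (m : ℤ) : q • be q' j m = be (q * q') j m :=
  Finsupp.mapDomain_single

lemma mapD_one (f : (Q × J) →₀ ℤ) :
    Finsupp.mapDomain (fun p : Q × J => (1 * p.1, p.2)) f = f := by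
  have : (fun p : Q × J => ((1 : Q) * p.1, p.2)) = id := by
    funext p; simp
  rw [this, Finsupp.mapDomain_id]

lemma mapD_mul (q q' : Q) (f : (Q × J) →₀ ℤ) :
    Finsupp.mapDomain (fun p : Q × J => (q * q' * p.1, p.2)) f =
      Finsupp.mapDomain (fun p : Q × J => (q * p.1, p.2))
        (Finsupp.mapDomain (fun p : Q × J => (q' * p.1, p.2)) f) := by
  rw [← Finsupp.mapDomain_comp]
  congr 1
  funext p
  simp [mul_assoc]

noncomputable instance : DistribMulAction Q (Fx Q J) where
  one_smul f := mapD_one f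
  mul_smul q q' f := mapD_mul q q' f
  smul_zero _ := Finsupp.mapDomain_zero
  smul_add _ _ _ := Finsupp.mapDomain_add

lemma Fx.induction {p : Fx Q J → Prop} (f : Fx Q J) (h0 : p 0)
    (hadd : ∀ f g, p f → p g → p (f + g)) (hs : ∀ q j m, p (be q j m)) : p f :=
  Finsupp.induction_linear f h0 hadd (fun a b => hs a.1 a.2 b)

/-- The semilinear extension of a map on the basis. -/
noncomputable def lin {N : Type*} [AddCommGroup N] (b : Q → J → N) : Fx Q J →+ N :=
  Finsupp.liftAddHom (fun p : Q × J => zmultiplesHom N (b p.1 p.2))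

lemma lin_be {N : Type*} [AddCommGroup N] (b : Q → J → N) (q : Q) (j : J) (m : ℤ) :
    lin b (be q j m) = m • b q j := by
  change (Finsupp.liftAddHom (fun p : Q × J => zmultiplesHom N (b p.1 p.2)))
    (Finsupp.single (q, j) m) = _
  rw [Finsupp.liftAddHom_apply_single]
  rfl

/-- Affine permutations. -/
def aff {N : Type*} [AddCommGroup N] [DistribMulAction Q N] (v : N) (q : Q) :
    Equiv.Perm N where
  toFun f := v + q • f
  invFun f := q⁻¹ • (f - v)
  left_inv f := by simp
  right_inv f := by simp

variable (π : FreeGroup J →* Q) {N : Type*} [AddCommGroup N] [DistribMulAction Q N]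

/-- The derivation of the free group with prescribed values on the generators. -/
noncomputable def dv (d : J → N) (w : FreeGroup J) : N :=
  FreeGroup.lift (fun j => aff (d j) (π (FreeGroup.of j))) w 0

lemma dv_aux (d : J → N) (w : FreeGroup J) (f : N) :
    FreeGroup.lift (fun j => aff (d j) (π (FreeGroup.of j))) w f = dv π d w + π w • f := by
  induction w using FreeGroup.induction_on generalizing f with
  | C1 => simp [dv]
  | of j => simp [dv, aff]
  | inv_of j h =>
    rw [dv, map_inv, map_inv, FreeGroup.lift_apply_of]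
    change (π (FreeGroup.of j))⁻¹ • (f - d j) =
      (π (FreeGroup.of j))⁻¹ • (0 - d j) + (π (FreeGroup.of j))⁻¹ • f
    rw [← smul_add]
    congr 1
    abel
  | mul w w' h h' =>
    rw [dv, map_mul, Equiv.Perm.mul_apply, Equiv.Perm.mul_apply, h, h', h, h' 0, smul_zero,
      add_zero, smul_add, map_mul, mul_smul, add_assoc]

lemma dv_mul (d : J → N) (w w' : FreeGroup J) : dv π d (w * w') = dv π d w + π w • dv π d w' := by
  rw [dv, map_mul, Equiv.Perm.mul_apply, dv_aux]
  rfl

lemma dv_one (d : J → N) : dv π d 1 = 0 := by simp [dv]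

lemma dv_inv (d : J → N) (w : FreeGroup J) : dv π d w⁻¹ = - ((π w)⁻¹ • dv π d w) := by
  have := dv_mul π d w⁻¹ w
  rw [inv_mul_cancel, dv_one, map_inv] at this
  exact eq_neg_of_add_eq_zero_left this.symm

lemma dv_of (d : J → N) (j : J) : dv π d (FreeGroup.of j) = d j := by simp [dv, aff]

/-- Two derivations that agree on generators agree. -/
lemma dv_unique (d : J → N) (δ : FreeGroup J → N)
    (hmul : ∀ w w', δ (w * w') = δ w + π w • δ w') (hof : ∀ j, δ (FreeGroup.of j) = d j)
    (w : FreeGroup J) : δ w = dv π d w := by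
  have h1 : δ 1 = 0 := by
    have := hmul 1 1
    rw [mul_one, map_one, one_smul] at this
    exact left_eq_add.mp this
  induction w using FreeGroup.induction_on with
  | C1 => rw [h1, dv_one]
  | of j => rw [hof, dv_of]
  | inv_of j h =>
    have h2 := hmul (FreeGroup.of j)⁻¹ (FreeGroup.of j)
    rw [inv_mul_cancel, h1, map_inv] at h2
    rw [dv_inv, ← h]
    exact eq_neg_of_add_eq_zero_left h2.symm
  | mul w w' h h' => rw [hmul, dv_mul, h, h']

end Fox

end Pool.Agent.BBN
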