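import Pool.Agent.BBG.Eval

/-!
Small families in finite groups, polynomial maps into nilpotent groups, and pairings.
-/

namespace Pool.Agent.BBN

open Pool.Agent.BBG

set_option linter.unusedSectionVars false

section Gen

lemma two_card_le {A : Type*} [Group A] [Finite A] {K K' : Subgroup A} (h : K < K') :
    2 * Nat.card K ≤ Nat.card K' := by
  obtain ⟨c, hc⟩ := Subgroup.card_dvd_of_le h.le
  have hne : Nat.card K ≠ Nat.card K' := fun he =>
    h.ne (Subgroup.eq_of_le_of_card_ge h.le he.ge)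
  have hpos : 0 < Nat.card K' := Nat.card_pos
  have h0 : c ≠ 0 := by
    rintro rfl
    omega
  have h1 : c ≠ 1 := by
    rintro rfl
    rw [mul_one] at hc
    exact hne hc.symm
  rw [hc, mul_comm]
  exact Nat.mul_le_mul_left _ (by omega)

lemma exists_gen_aux {A : Type*} [Group A] [Finite A] (H : Subgroup A) :
    ∀ (N : ℕ) (K : Subgroup A), K ≤ H → Nat.card H ≤ 2 ^ N * Nat.card K →
      ∃ a : Fin N → A, (∀ i, a i ∈ H) ∧ K ⊔ Subgroup.closure (Set.range a) = H := by
  intro N
  induction N with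
  | zero =>
    intro K hK h
    rw [pow_zero, one_mul] at h
    refine ⟨Fin.elim0, fun i => i.elim0, ?_⟩
    have : K = H := Subgroup.eq_of_le_of_card_ge hK h
    rw [Set.range_eq_empty, Subgroup.closure_empty, sup_bot_eq, this]
  | succ N ih =>
    intro K hK h
    by_cases hKH : K = H
    · refine ⟨fun _ => 1, fun _ => H.one_mem, ?_⟩
      rw [Set.range_const, Subgroup.closure_singleton_one, sup_bot_eq, hKH]
    · obtain ⟨x, hx, hxK⟩ := SetLike.exists_of_lt (lt_of_le_of_ne hK hKH)
      have hlt : K < K ⊔ Subgroup.closure {x} := by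
        refine lt_of_le_of_ne le_sup_left ?_
        intro he
        apply hxK
        rw [he]
        exact (le_sup_right : _ ≤ K ⊔ Subgroup.closure {x}) (Subgroup.subset_closure rfl)
      have hle : K ⊔ Subgroup.closure {x} ≤ H := by
        refine sup_le hK ?_
        rw [Subgroup.closure_le]
        simpa using hx
      have h2 := two_card_le hlt
      obtain ⟨a, ha, hcl⟩ := ih _ hle (by
        calc Nat.card H ≤ 2 ^ (N + 1) * Nat.card K := h
          _ = 2 ^ N * (2 * Nat.card K) := by ring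
          _ ≤ _ := Nat.mul_le_mul_left _ h2)
      refine ⟨Fin.cons x a, ?_, ?_⟩
      · intro i
        refine Fin.cases ?_ ?_ i
        · exact hx
        · intro j
          simpa using ha j
      · rw [Fin.range_cons, Set.insert_eq, Subgroup.closure_union, ← sup_assoc]
        exact hcl

/-- A finite group of order at most `2 ^ N` is generated by `N` elements. -/
lemma exists_gen {A : Type*} [Group A] [Finite A] (H : Subgroup A) {N : ℕ}
    (h : Nat.card H ≤ 2 ^ N) :
    ∃ a : Fin N → A, (∀ i, a i ∈ H) ∧ Subgroup.closure (Set.range a) = H := by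
  obtain ⟨a, ha, hcl⟩ := exists_gen_aux H N ⊥ bot_le (by simpa using h)
  exact ⟨a, ha, by simpa using hcl⟩

lemma exists_gen_top {A : Type*} [Group A] [Finite A] {N : ℕ} (h : Nat.card A ≤ 2 ^ N) :
    ∃ a : Fin N → A, Subgroup.closure (Set.range a) = ⊤ := by
  obtain ⟨a, -, ha⟩ := exists_gen (⊤ : Subgroup A) (N := N) (by
    rw [Nat.card_congr (Subgroup.topEquiv (G := A)).toEquiv]
    exact h)
  exact ⟨a, ha⟩

end Gen

section Small

/-- A family of elements is small if it is contained in a subgroup of order at most `2 ^ M`. -/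
def Small {W : Type*} [Group W] (M : ℕ) (F : Set W) : Prop :=
  ∃ L : Subgroup W, F ⊆ L ∧ Finite L ∧ Nat.card L ≤ 2 ^ M

variable {W W' : Type*} [Group W] [Group W']

lemma Small.mono {N M : ℕ} {F F' : Set W} (h : Small N F) (hF : F' ⊆ F) (hN : N ≤ M) :
    Small M F' := by
  obtain ⟨L, h1, h2, h3⟩ := h
  exact ⟨L, hF.trans h1, h2, h3.trans (Nat.pow_le_pow_right (by norm_num) hN)⟩

lemma Small.inv {N : ℕ} {F F' : Set W} (h : Small N F) (hF : ∀ f ∈ F', ∃ g ∈ F, f = g⁻¹) :
    Small N F' := by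
  obtain ⟨L, h1, h2, h3⟩ := h
  refine ⟨L, ?_, h2, h3⟩
  intro f hf
  obtain ⟨g, hg, rfl⟩ := hF f hf
  exact L.inv_mem (h1 hg)

lemma Small.map {N : ℕ} {F : Set W} (h : Small N F) (θ : W →* W') {F' : Set W'}
    (hF : ∀ f ∈ F', ∃ g ∈ F, f = θ g) : Small N F' := by
  obtain ⟨L, h1, h2, h3⟩ := h
  have hs : Function.Surjective (fun p : L => (⟨θ p, ⟨p, p.2, rfl⟩⟩ : ↥(L.map θ))) := by
    rintro ⟨_, ⟨y, hy, rfl⟩⟩
    exact ⟨⟨y, hy⟩, rfl⟩
  refine ⟨L.map θ, ?_, Finite.of_surjective _ hs, ?_⟩
  · intro f hf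
    obtain ⟨g, hg, rfl⟩ := hF f hf
    exact ⟨g, h1 hg, rfl⟩
  · exact (Nat.card_le_card_of_surjective _ hs).trans h3

/-- Jointly injective homomorphisms detect smallness. -/
lemma Small.joint {m : ℕ} {N : ℕ} {W' : Fin m → Type*} [∀ i, Group (W' i)]
    (θ : ∀ i, W →* W' i) (hθ : ∀ e, (∀ i, θ i e = 1) → e = 1)
    {F : Set W} (h : ∀ i, Small N ((θ i) '' F)) : Small (m * N) F := by
  choose L h1 h2 h3 using h
  let M : Subgroup W := ⨅ i, (L i).comap (θ i)
  have hM : ∀ f ∈ M, ∀ i, θ i f ∈ L i := by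
    intro f hf i
    exact (Subgroup.mem_iInf.mp hf) i
  have hinj : Function.Injective
      (fun (f : M) (i : Fin m) => (⟨θ i f, hM f f.2 i⟩ : L i)) := by
    intro f g hfg
    apply Subtype.ext
    rw [← mul_inv_eq_one]
    apply hθ
    intro i
    have := congrArg (fun y : (∀ i, L i) => ((y i : L i) : W' i)) hfg
    change θ i f.1 = θ i g.1 at this
    rw [map_mul, map_inv, this, mul_inv_cancel]
  have : ∀ i, Finite (L i) := h2
  refine ⟨M, ?_, Finite.of_injective _ hinj, ?_⟩
  · intro f hf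
    rw [SetLike.mem_coe, Subgroup.mem_iInf]
    intro i
    exact h1 i ⟨f, hf, rfl⟩
  · refine (Nat.card_le_card_of_injective _ hinj).trans ?_
    rw [Nat.card_pi]
    calc ∏ i, Nat.card (L i) ≤ ∏ _i : Fin m, 2 ^ N := Finset.prod_le_prod' fun i _ => h3 i
      _ = 2 ^ (m * N) := by
        rw [Finset.prod_const, Finset.card_univ, Fintype.card_fin, ← pow_mul, Nat.mul_comm]

lemma Small.comap {N : ℕ} (θ : W →* W') (hθ : Function.Injective θ)
    {F : Set W} (h : Small N (θ '' F)) : Small N F := by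
  have h1 := Small.joint (m := 1) (N := N) (fun _ => θ) (fun e he => hθ (by
    rw [he 0, map_one])) (F := F) (fun _ => h)
  rwa [one_mul] at h1

lemma Small.whole [Finite W] {e : ℕ} (he : Nat.card W ≤ 2 ^ e) (F : Set W) : Small e F := by
  refine ⟨⊤, Set.subset_univ _, inferInstance, ?_⟩
  rw [Nat.card_congr (Subgroup.topEquiv (G := W)).toEquiv]
  exact he

/-- Generators of the closure of a small family. -/
lemma Small.gens {M : ℕ} {F : Set W} (h : Small M F) :
    ∃ b : Fin M → W, (∀ i, b i ∈ Subgroup.closure F) ∧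
      Subgroup.closure (Set.range b) = Subgroup.closure F := by
  obtain ⟨L, h1, h2, h3⟩ := h
  have hle : Subgroup.closure F ≤ L := (Subgroup.closure_le L).mpr h1
  have : Finite L := h2
  let C : Subgroup L := (Subgroup.closure F).subgroupOf L
  obtain ⟨b, hb, hbc⟩ := exists_gen C (N := M) ((Subgroup.card_le_card_group C).trans h3)
  have hmap : C.map L.subtype = Subgroup.closure F := by
    rw [Subgroup.map_subgroupOf_eq_of_le hle]
  refine ⟨fun i => (b i : W), ?_, ?_⟩
  · intro i
    exact hb i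
  · rw [← hmap, ← hbc, MonoidHom.map_closure]
    congr 1
    ext x
    constructor
    · rintro ⟨i, rfl⟩
      exact ⟨b i, ⟨i, rfl⟩, rfl⟩
    · rintro ⟨_, ⟨i, rfl⟩, rfl⟩
      exact ⟨i, rfl⟩

/-- A family is generated by `k` elements. -/
def Gen (k : ℕ) (F : Set W) : Prop :=
  ∃ (I : Type) (_ : Finite I) (w : I → W), Nat.card I ≤ k ∧ F ⊆ Subgroup.closure (Set.range w)

lemma Small.gen {M : ℕ} {F : Set W} (h : Small M F) : Gen M F := by
  obtain ⟨b, -, hb⟩ := h.gens
  refine ⟨Fin M, inferInstance, b, by rw [Nat.card_fin], ?_⟩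
  rw [hb]
  exact Subgroup.subset_closure

lemma Gen.mul {k l : ℕ} {F F' F'' : Set W} (h : Gen k F) (h' : Gen l F')
    (hF : ∀ f ∈ F'', ∃ g ∈ F, ∃ g' ∈ F', f = g * g') : Gen (k + l) F'' := by
  obtain ⟨I, _, w, hI, hw⟩ := h
  obtain ⟨I', _, w', hI', hw'⟩ := h'
  refine ⟨I ⊕ I', inferInstance, Sum.elim w w', ?_, ?_⟩
  · rw [Nat.card_sum]
    exact Nat.add_le_add hI hI'
  · intro f hf
    obtain ⟨g, hg, g', hg', rfl⟩ := hF f hf
    have e1 : Subgroup.closure (Set.range w) ≤ Subgroup.closure (Set.range (Sum.elim w w')) := by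
      apply Subgroup.closure_mono
      rintro _ ⟨i, rfl⟩
      exact ⟨Sum.inl i, rfl⟩
    have e2 : Subgroup.closure (Set.range w') ≤
        Subgroup.closure (Set.range (Sum.elim w w')) := by
      apply Subgroup.closure_mono
      rintro _ ⟨i, rfl⟩
      exact ⟨Sum.inr i, rfl⟩
    exact Subgroup.mul_mem _ (e1 (hw hg)) (e2 (hw' hg'))

end Small

section Poly
variable {Γ N : Type*} [Group Γ] [Group N]

/-- Maps all of whose `i`-fold differences are trivial. -/
def PolyF : ℕ → (Γ → N) → Prop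
  | 0, f => ∀ x, f x = 1
  | i + 1, f => ∀ s : Γ, PolyF i (fun x => (f x)⁻¹ * f (x * s))

lemma polyF_congr {i : ℕ} {f g : Γ → N} (h : ∀ x, f x = g x) (hf : PolyF i f) : PolyF i g := by
  have : f = g := funext h
  rwa [← this]

/-- A function is determined by the value at one and the differences of generators. -/
lemma eq_of_diff {r : ℕ} (S : Fin r → Γ) (hS : Subgroup.closure (Set.range S) = ⊤) {f g : Γ → N}
    (h1 : f 1 = g 1) (h : ∀ i x, (f x)⁻¹ * f (x * S i) = (g x)⁻¹ * g (x * S i)) : f = g := by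
  have key : ∀ y ∈ Subgroup.closure (Set.range S), ∀ x, (f x)⁻¹ * f (x * y) =
      (g x)⁻¹ * g (x * y) := by
    intro y hy
    induction hy using Subgroup.closure_induction with
    | mem y hy =>
      obtain ⟨i, rfl⟩ := hy
      exact h i
    | one => intro x; simp
    | mul y z _ _ h1 h2 =>
      intro x
      have e1 : ∀ k : Γ → N, (k x)⁻¹ * k (x * (y * z)) =
          ((k x)⁻¹ * k (x * y)) * ((k (x * y))⁻¹ * k (x * y * z)) := by
        intro k
        rw [← mul_assoc x y z]
        group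
      rw [e1 f, e1 g, h1 x, h2 (x * y)]
    | inv y _ h1 =>
      intro x
      have e1 : ∀ k : Γ → N, (k x)⁻¹ * k (x * y⁻¹) =
          ((k (x * y⁻¹))⁻¹ * k (x * y⁻¹ * y))⁻¹ := by
        intro k
        rw [inv_mul_cancel_right]
        group
      rw [e1 f, e1 g, h1 (x * y⁻¹)]
  funext x
  have hx : x ∈ Subgroup.closure (Set.range S) := by rw [hS]; trivial
  have := key x hx 1
  rw [one_mul, h1] at this
  exact mul_left_cancel this

lemma card_polyF [Finite Γ] [Finite N] {r e : ℕ} (S : Fin r → Γ)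
    (hS : Subgroup.closure (Set.range S) = ⊤) (hN : Nat.card N ≤ 2 ^ e) :
    ∀ i, Nat.card {f : Γ → N // PolyF i f} ≤ 2 ^ (e * (r + 1) ^ i) := by
  intro i
  induction i with
  | zero =>
    have : Subsingleton {f : Γ → N // PolyF 0 f} := by
      constructor
      rintro ⟨f, hf⟩ ⟨g, hg⟩
      apply Subtype.ext
      funext x
      exact (hf x).trans (hg x).symm
    calc Nat.card {f : Γ → N // PolyF 0 f} ≤ 1 := Finite.card_le_one_iff_subsingleton.mpr this
      _ ≤ _ := Nat.one_le_two_pow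
  | succ i ih =>
    have hinj : Function.Injective (fun f : {f : Γ → N // PolyF (i + 1) f} =>
        ((f.1 1, fun j => ⟨fun x => (f.1 x)⁻¹ * f.1 (x * S j), f.2 (S j)⟩) :
          N × (Fin r → {f : Γ → N // PolyF i f}))) := by
      intro f g hfg
      apply Subtype.ext
      refine eq_of_diff S hS (congrArg Prod.fst hfg) ?_
      intro j x
      have h1 := congrArg (fun p => ((Prod.snd p) j).1 x) hfg
      exact h1
    refine (Nat.card_le_card_of_injective _ hinj).trans ?_
    rw [Nat.card_prod, Nat.card_pi, Finset.prod_const, Finset.card_univ, Fintype.card_fin]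
    calc Nat.card N * Nat.card {f : Γ → N // PolyF i f} ^ r
        ≤ 2 ^ e * (2 ^ (e * (r + 1) ^ i)) ^ r := Nat.mul_le_mul hN (Nat.pow_le_pow_left ih r)
      _ = 2 ^ (e + e * (r + 1) ^ i * r) := by rw [← pow_mul, ← pow_add]
      _ ≤ 2 ^ (e * (r + 1) ^ (i + 1)) := by
        apply Nat.pow_le_pow_right (by norm_num)
        have h1 : 1 ≤ (r + 1) ^ i := Nat.one_le_pow _ _ (by omega)
        calc e + e * (r + 1) ^ i * r ≤ e * (r + 1) ^ i + e * (r + 1) ^ i * r := by
              exact Nat.add_le_add_right (Nat.le_mul_of_pos_right e h1) _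
          _ = e * (r + 1) ^ (i + 1) := by ring

/-- Values of a polynomial map are generated by few elements. -/
lemma polyGen {r : ℕ} (S : Fin r → Γ) (hS : Subgroup.closure (Set.range S) = ⊤) :
    ∀ (i : ℕ) (f : Γ → N), PolyF i f → Gen ((r + 1) ^ i) (Set.range f) := by
  intro i
  induction i with
  | zero =>
    intro f hf
    refine ⟨Empty, inferInstance, Empty.elim, by simp, ?_⟩
    rintro _ ⟨x, rfl⟩
    rw [hf x]
    exact Subgroup.one_mem _
  | succ i ih =>
    intro f hf
    have h1 : ∀ j : Fin r, Gen ((r + 1) ^ i) (Set.range fun x => (f x)⁻¹ * f (x * S j)) :=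
      fun j => ih _ (hf (S j))
    choose I hI w hIc hw using h1
    let J := Option (Σ j : Fin r, I j)
    have : ∀ j, Finite (I j) := hI
    let w' : J → N := fun o => Option.elim o (f 1) (fun p => w p.1 p.2)
    refine ⟨J, inferInstance, w', ?_, ?_⟩
    · have h2 : Nat.card J = (∑ j : Fin r, Nat.card (I j)) + 1 := by
        rw [Finite.card_option, Nat.card_sigma]
      rw [h2]
      have h3 : ∑ j : Fin r, Nat.card (I j) ≤ r * (r + 1) ^ i := by
        calc ∑ j : Fin r, Nat.card (I j) ≤ ∑ _j : Fin r, (r + 1) ^ i :=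
              Finset.sum_le_sum fun j _ => hIc j
          _ = r * (r + 1) ^ i := by simp
      have h4 : 1 ≤ (r + 1) ^ i := Nat.one_le_pow _ _ (by omega)
      calc (∑ j : Fin r, Nat.card (I j)) + 1 ≤ r * (r + 1) ^ i + (r + 1) ^ i := by omega
        _ = (r + 1) ^ (i + 1) := by ring
    · have hle : ∀ j, Subgroup.closure (Set.range (w j)) ≤ Subgroup.closure (Set.range w') := by
        intro j
        apply Subgroup.closure_mono
        rintro _ ⟨t, rfl⟩
        exact ⟨some ⟨j, t⟩, rfl⟩
      have hd : ∀ j x, (f x)⁻¹ * f (x * S j) ∈ Subgroup.closure (Set.range w') :=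
        fun j x => hle j (hw j ⟨x, rfl⟩)
      have key : ∀ y ∈ Subgroup.closure (Set.range S), ∀ x,
          (f x)⁻¹ * f (x * y) ∈ Subgroup.closure (Set.range w') := by
        intro y hy
        induction hy using Subgroup.closure_induction with
        | mem y hy =>
          obtain ⟨j, rfl⟩ := hy
          exact hd j
        | one => intro x; simp
        | mul y z _ _ h1 h2 =>
          intro x
          have e1 : (f x)⁻¹ * f (x * (y * z)) =
              ((f x)⁻¹ * f (x * y)) * ((f (x * y))⁻¹ * f (x * y * z)) := by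
            rw [← mul_assoc x y z]
            group
          rw [e1]
          exact Subgroup.mul_mem _ (h1 x) (h2 (x * y))
        | inv y _ h1 =>
          intro x
          have e1 : (f x)⁻¹ * f (x * y⁻¹) =
              ((f (x * y⁻¹))⁻¹ * f (x * y⁻¹ * y))⁻¹ := by
            rw [inv_mul_cancel_right]
            group
          rw [e1]
          exact Subgroup.inv_mem _ (h1 (x * y⁻¹))
      rintro _ ⟨x, rfl⟩
      have hx : x ∈ Subgroup.closure (Set.range S) := by rw [hS]; trivial
      have h5 := key x hx 1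
      rw [one_mul] at h5
      have h6 : f 1 ∈ Subgroup.closure (Set.range w') := Subgroup.subset_closure ⟨none, rfl⟩
      have h7 := Subgroup.mul_mem _ h6 h5
      rwa [mul_inv_cancel_left] at h7

/-- Nilpotent of class at most `d`. -/
def Nil (d : ℕ) (N : Type*) [Group N] : Prop := (⊤ : Subgroup N).lowerCentralSeries d = ⊥

lemma Nil.joint {d : ℕ} {N : Type*} [Group N] {ι : Type*} {M : ι → Type*} [∀ i, Group (M i)]
    (θ : ∀ i, N →* M i) (hθ : ∀ x, (∀ i, θ i x = 1) → x = 1) (h : ∀ i, Nil d (M i)) :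
    Nil d N := by
  unfold Nil at *
  rw [eq_bot_iff]
  intro x hx
  rw [Subgroup.mem_bot]
  apply hθ
  intro i
  have h1 : θ i x ∈ ((⊤ : Subgroup N).lowerCentralSeries d).map (θ i) :=
    Subgroup.mem_map_of_mem _ hx
  rw [Subgroup.map_lowerCentralSeries] at h1
  have h2 : θ i x ∈ (⊤ : Subgroup (M i)).lowerCentralSeries d :=
    Subgroup.lowerCentralSeries_mono (G := M i) d
      (le_top (a := (⊤ : Subgroup N).map (θ i))) h1
  rw [h i, Subgroup.mem_bot] at h2
  exact h2

lemma Nil.pi {d : ℕ} {N Z : Type*} [Group N] (h : Nil d N) : Nil d (Z → N) :=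
  Nil.joint (fun z => Pi.evalMonoidHom (fun _ : Z => N) z) (fun _ hx => funext hx) (fun _ => h)

/-- Functions generated by constants and homomorphisms are polynomial. -/
lemma polyF_P0 {d : ℕ} (hN : Nil d N) {k : Type*} (p : k → Γ →* N) {f : Γ → N}
    (hf : f ∈ P0 p) : PolyF (d + 2) f := by
  have hch := chain_P0 p d hN (Set.univ : Set Γ)
  have key : ∀ (i : ℕ) (K : Subgroup (↥(P0 p))),
      Chain (fun s : (Set.univ : Set Γ) => shiftP p (s : Γ)) i K →
      ∀ y ∈ K, PolyF i (y : Γ → N) := by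
    intro i K hK
    induction hK with
    | bot =>
      intro y hy x
      rw [Subgroup.mem_bot] at hy
      rw [hy]
      rfl
    | step h1 h2 h3 ih =>
      intro y hy s
      exact ih _ (h3 y hy ⟨s, Set.mem_univ s⟩)
  exact key _ _ hch ⟨f, hf⟩ (Subgroup.mem_top _)

lemma card_P0_le [Finite Γ] [Finite N] {d r e : ℕ} (hN : Nil d N) (hΓ : Nat.card Γ ≤ 2 ^ r)
    (hNc : Nat.card N ≤ 2 ^ e) {k : Type*} (p : k → Γ →* N) :
    Nat.card ↥(P0 p) ≤ 2 ^ (e * (r + 1) ^ (d + 2)) := by
  obtain ⟨S, hS⟩ := exists_gen_top hΓ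
  refine le_trans ?_ (card_polyF S hS hNc (d + 2))
  exact Nat.card_le_card_of_injective
    (fun f : ↥(P0 p) => (⟨f.1, polyF_P0 hN p f.2⟩ : {f : Γ → N // PolyF (d + 2) f}))
    (fun f g h => Subtype.ext (congrArg (fun y => y.1) h))

end Poly

section Fun
variable {Y N : Type*} [Finite Y] [Group N] [Finite N]

/-- Few functions into a nilpotent group of bounded class generate a small group. -/
lemma Gen.small {d k e : ℕ} (hN : Nil d N) (hNc : Nat.card N ≤ 2 ^ e) {F : Set (Y → N)}
    (h : Gen k F) : Small (e * (e * k + 1) ^ (d + 2)) F := by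
  obtain ⟨I, _, w, hI, hw⟩ := h
  let Γ := I → N
  let pr : I → Γ →* N := fun i => Pi.evalMonoidHom (fun _ : I => N) i
  let θ : (Γ → N) →* (Y → N) :=
    { toFun := fun f y => f (fun i => w i y)
      map_one' := rfl
      map_mul' := fun _ _ => rfl }
  have hΓ : Nat.card Γ ≤ 2 ^ (e * k) := by
    rw [Nat.card_fun]
    calc Nat.card N ^ Nat.card I ≤ (2 ^ e) ^ Nat.card I := Nat.pow_le_pow_left hNc _
      _ = 2 ^ (e * Nat.card I) := by rw [← pow_mul]
      _ ≤ _ := Nat.pow_le_pow_right (by norm_num) (Nat.mul_le_mul_left _ hI)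
  have hc := card_P0_le hN hΓ hNc pr
  have hs : Small (e * (e * k + 1) ^ (d + 2)) ((P0 pr : Subgroup (Γ → N)) : Set (Γ → N)) :=
    ⟨P0 pr, subset_rfl, inferInstance, hc⟩
  obtain ⟨L, h1, h2, h3⟩ := hs.map θ (F' := θ '' (P0 pr : Subgroup (Γ → N))) (by
    rintro _ ⟨g, hg, rfl⟩
    exact ⟨g, hg, rfl⟩)
  refine ⟨L, ?_, h2, h3⟩
  intro f hf
  have h4 : Subgroup.closure (Set.range w) ≤ L := by
    rw [Subgroup.closure_le]
    rintro _ ⟨i, rfl⟩
    exact h1 ⟨_, proj_mem_P0 pr i, rfl⟩
  exact h4 (hw hf)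

/-- A single function is small. -/
lemma Small.single {e : ℕ} (hNc : Nat.card N ≤ 2 ^ e) {F : Set (Y → N)} (g : Y → N)
    (hF : ∀ f ∈ F, f = g) : Small e F := by
  have hfin : Finite (Y → N) := inferInstance
  refine ⟨Subgroup.zpowers g, ?_, inferInstance, ?_⟩
  · intro f hf
    rw [hF f hf]
    exact Subgroup.mem_zpowers g
  · rw [Nat.card_zpowers]
    refine le_trans (Nat.le_of_dvd Nat.card_pos ?_) hNc
    apply orderOf_dvd_of_pow_eq_one
    funext x
    change g x ^ Nat.card N = 1
    exact pow_card_eq_one'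

/-- The pairing rule. The functions `y ↦ f (y, z y)` are generated by few elements if the
functions `f` and the functions `y ↦ ι (z y)` are small and every `f (y, ·)` extends to a
polynomial map. -/
theorem pairing {Z Λ : Type*} [Group Λ] {D M₁ M₂ : ℕ} (ι : Z → Λ)
    (Q : Subgroup (Λ → N)) (hQ : ∀ q ∈ Q, PolyF D q)
    {F₁ : Set (Y × Z → N)} {F₂ : Set (Y → Λ)} (h₁ : Small M₁ F₁) (h₂ : Small M₂ F₂)
    (hext : ∀ f ∈ F₁, ∀ y, ∃ q ∈ Q, ∀ z, f (y, z) = q (ι z))
    {F : Set (Y → N)} (hF : ∀ f ∈ F, ∃ g ∈ F₁, ∃ z : Y → Z, (fun y => ι (z y)) ∈ F₂ ∧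
      f = fun y => g (y, z y)) : Gen (M₁ * (M₂ + 1) ^ D) F := by
  obtain ⟨b, hb, hbc⟩ := h₁.gens
  obtain ⟨c, hc, hcc⟩ := h₂.gens
  -- the extension property for the closure
  have hext' : ∀ f ∈ Subgroup.closure F₁, ∀ y, ∃ q ∈ Q, ∀ z, f (y, z) = q (ι z) := by
    intro f hf
    induction hf using Subgroup.closure_induction with
    | mem f hf => exact hext f hf
    | one => intro y; exact ⟨1, Q.one_mem, fun z => rfl⟩
    | mul f g _ _ h1 h2 =>
      intro y
      obtain ⟨q, hq, e⟩ := h1 y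
      obtain ⟨q', hq', e'⟩ := h2 y
      refine ⟨q * q', Q.mul_mem hq hq', fun z => ?_⟩
      change f (y, z) * g (y, z) = _
      rw [e, e']
      rfl
    | inv f _ h1 =>
      intro y
      obtain ⟨q, hq, e⟩ := h1 y
      refine ⟨q⁻¹, Q.inv_mem hq, fun z => ?_⟩
      change (f (y, z))⁻¹ = _
      rw [e]
      rfl
  have hq : ∀ i y, ∃ q ∈ Q, ∀ z, b i (y, z) = q (ι z) := fun i y => hext' _ (hb i) y
  choose q hqQ hqe using hq
  -- the group of the second family
  let L₂ : Subgroup (Y → Λ) := Subgroup.closure F₂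
  let c' : Fin M₂ → L₂ := fun j => ⟨c j, hc j⟩
  have hc' : Subgroup.closure (Set.range c') = ⊤ := by
    rw [eq_top_iff]
    rintro ⟨l, hl⟩ _
    have hl' : l ∈ Subgroup.closure (Set.range c) := by rw [hcc]; exact hl
    refine Subgroup.closure_induction (p := fun l _ => ∀ hl : l ∈ L₂,
      (⟨l, hl⟩ : L₂) ∈ Subgroup.closure (Set.range c')) ?_ ?_ ?_ ?_ hl' hl
    · rintro _ ⟨j, rfl⟩ _
      exact Subgroup.subset_closure ⟨j, rfl⟩
    · intro _
      exact Subgroup.one_mem _
    · intro x y hx hy h1 h2 hxy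
      have hx' : x ∈ L₂ := by rw [hcc] at hx; exact hx
      have hy' : y ∈ L₂ := by rw [hcc] at hy; exact hy
      exact Subgroup.mul_mem _ (h1 hx') (h2 hy')
    · intro x hx h1 hx2
      have hx' : x ∈ L₂ := by rw [hcc] at hx; exact hx
      exact Subgroup.inv_mem _ (h1 hx')
  -- the polynomial maps
  let P : Fin M₁ → L₂ → (Y → N) := fun i l y => q i y (l.1 y)
  have hP : ∀ i, PolyF D (P i) := by
    have key : ∀ (D : ℕ) (q : Y → Λ → N), (∀ y, PolyF D (q y)) →
        PolyF D (fun (l : L₂) (y : Y) => q y (l.1 y)) := by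
      intro D
      induction D with
      | zero =>
        intro q hq l
        funext y
        exact hq y _
      | succ D ih =>
        intro q hq s
        have := ih (fun y x => (q y x)⁻¹ * q y (x * s.1 y)) (fun y => hq y (s.1 y))
        exact polyF_congr (fun l => rfl) this
    intro i
    exact key D (q i) (fun y => hQ _ (hqQ i y))
  have hG := fun i => polyGen c' hc' D (P i) (hP i)
  choose I hI w hIc hw using hG
  have : ∀ i, Finite (I i) := hI
  let w' : (Σ i : Fin M₁, I i) → (Y → N) := fun p => w p.1 p.2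
  refine ⟨Σ i : Fin M₁, I i, inferInstance, w', ?_, ?_⟩
  · rw [Nat.card_sigma]
    calc ∑ i : Fin M₁, Nat.card (I i) ≤ ∑ _i : Fin M₁, (M₂ + 1) ^ D :=
          Finset.sum_le_sum fun i _ => hIc i
      _ = M₁ * (M₂ + 1) ^ D := by simp
  · have hle : ∀ i, Subgroup.closure (Set.range (w i)) ≤ Subgroup.closure (Set.range w') := by
      intro i
      apply Subgroup.closure_mono
      rintro _ ⟨t, rfl⟩
      exact ⟨⟨i, t⟩, rfl⟩
    have key : ∀ f ∈ Subgroup.closure (Set.range b), ∀ z : Y → Z, (fun y => ι (z y)) ∈ L₂ →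
        (fun y => f (y, z y)) ∈ Subgroup.closure (Set.range w') := by
      intro f hf
      induction hf using Subgroup.closure_induction with
      | mem f hf =>
        obtain ⟨i, rfl⟩ := hf
        intro z hz
        have e : (fun y => b i (y, z y)) = P i ⟨fun y => ι (z y), hz⟩ := by
          funext y
          exact hqe i y (z y)
        rw [e]
        exact hle i (hw i ⟨_, rfl⟩)
      | one => intro z _; exact Subgroup.one_mem _
      | mul f g _ _ h1 h2 => intro z hz; exact Subgroup.mul_mem _ (h1 z hz) (h2 z hz)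
      | inv f _ h1 => intro z hz; exact Subgroup.inv_mem _ (h1 z hz)
    intro f hf
    obtain ⟨g, hg, z, hz, rfl⟩ := hF f hf
    refine key g ?_ z (Subgroup.subset_closure hz)
    rw [hbc]
    exact Subgroup.subset_closure hg

end Fun

end Pool.Agent.BBN
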